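import Pool.Agent.W769.HU.Num

/-!
The coefficients of the kernels.
-/

open Complex Set Filter Topology

namespace Pool.Agent.W769.HU

/-- the Moebius map fixing `i` and the half plane -/
noncomputable def RR (w : ℂ) : ℂ := (60 * w - 1) / (w + 60)

lemma RR_im (w : ℂ) : (RR w).im = 3601 * w.im / Complex.normSq (w + 60) := by
  unfold RR
  rw [Complex.div_im]
  simp only [Complex.sub_im, Complex.mul_im, Complex.sub_re, Complex.mul_re, Complex.add_re,
    Complex.add_im]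
  norm_num
  by_cases h : Complex.normSq (w + 60) = 0
  · simp [h]
  · field_simp
    ring

lemma RR_mapsTo_LH : MapsTo RR LH LH := by
  intro τ hτ
  have hτ' : τ.im ≤ 0 := hτ
  show (RR τ).im ≤ 0
  rw [RR_im]
  apply div_nonpos_of_nonpos_of_nonneg _ (Complex.normSq_nonneg _)
  linarith

lemma add60_ne {w : ℂ} (hw : w ∈ UH) : w + 60 ≠ 0 := by
  intro h
  have hw' : 0 < w.im := hw
  have : (w + 60).im = 0 := by rw [h]; simp
  simp at this
  linarith

lemma RR_mapsTo_UH : MapsTo RR UH UH := by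
  intro w hw
  have hw' : 0 < w.im := hw
  show 0 < (RR w).im
  rw [RR_im]
  apply div_pos (by linarith) (Complex.normSq_pos.mpr (add60_ne hw))

lemma continuousAt_RR {t : ℝ} (ht : t ≠ -60) : ContinuousAt RR (t : ℂ) := by
  unfold RR
  apply ContinuousAt.div (by fun_prop) (by fun_prop)
  intro h
  apply ht
  have : (t : ℂ) = -60 := eq_neg_of_add_eq_zero_left h
  exact_mod_cast this

lemma RR_ofReal (t : ℝ) : RR (t : ℂ) = (((60 * t - 1) / (t + 60) : ℝ) : ℂ) := by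
  unfold RR
  push_cast
  ring

/-- difference of the tip contributions of the kernel with pole `τ` -/
noncomputable def DD (s s' : ℝ) (τ : ℂ) : ℝ :=
  -(JJ AF 23 τ (s : ℂ) - JJ AF 23 τ I).im
    + (3601 / (τ + 60) ^ 2 * (JJ AG 23 (RR τ) (s' : ℂ) - JJ AG 23 (RR τ) I)
        - (τ + 60)⁻¹ * (Phi AG 23 (s' : ℂ) - Phi AG 23 I)).im

lemma continuousWithinAt_DD {s s' t t' : ℝ} (ht1 : t ≠ -1) (ht60 : t ≠ -60) (hst : s ≠ t)
    (ht' : (60 * t - 1) / (t + 60) = t') (ht'1 : t' ≠ -1) (hst' : s' ≠ t') :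
    ContinuousWithinAt (DD s s') LH (t : ℂ) := by
  have hI : (I : ℂ) ≠ (t : ℂ) := by
    intro h
    have := congrArg Complex.im h
    simp at this
  have hI' : (I : ℂ) ≠ (t' : ℂ) := by
    intro h
    have := congrArg Complex.im h
    simp at this
  have hs : (s : ℂ) ≠ (t : ℂ) := by exact_mod_cast hst
  have hs' : (s' : ℂ) ≠ (t' : ℂ) := by exact_mod_cast hst'
  have hRt : RR (t : ℂ) = (t' : ℂ) := by rw [RR_ofReal, ht']
  have h60 : (t : ℂ) + 60 ≠ 0 := by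
    intro h
    apply ht60
    have : (t : ℂ) = -60 := eq_neg_of_add_eq_zero_left h
    exact_mod_cast this
  have hR : ContinuousWithinAt RR LH (t : ℂ) := (continuousAt_RR ht60).continuousWithinAt
  have c1 := continuousWithinAt_JJ_τ AF 23 (t := t) (w := (s : ℂ)) (by simp) ht1 hs
  have c2 := continuousWithinAt_JJ_τ AF 23 (t := t) (w := I) (by simp) ht1 hI
  have c3 : ContinuousWithinAt (fun τ => JJ AG 23 (RR τ) (s' : ℂ)) LH (t : ℂ) := by
    refine ContinuousWithinAt.comp (t := LH) (g := fun τ => JJ AG 23 τ (s' : ℂ)) (f := RR)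
      ?_ hR RR_mapsTo_LH
    rw [hRt]
    exact continuousWithinAt_JJ_τ AG 23 (by simp) ht'1 hs'
  have c4 : ContinuousWithinAt (fun τ => JJ AG 23 (RR τ) I) LH (t : ℂ) := by
    refine ContinuousWithinAt.comp (t := LH) (g := fun τ => JJ AG 23 τ I) (f := RR)
      ?_ hR RR_mapsTo_LH
    rw [hRt]
    exact continuousWithinAt_JJ_τ AG 23 (by simp) ht'1 hI'
  have c5 : ContinuousWithinAt (fun τ : ℂ => 3601 / (τ + 60) ^ 2) LH (t : ℂ) :=
    (ContinuousAt.div (f := fun _ : ℂ => (3601 : ℂ)) (g := fun τ : ℂ => (τ + 60) ^ 2)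
      (by fun_prop) (by fun_prop) (pow_ne_zero 2 h60)).continuousWithinAt
  have c6 : ContinuousWithinAt (fun τ : ℂ => (τ + 60)⁻¹) LH (t : ℂ) :=
    (ContinuousAt.inv₀ (f := fun τ : ℂ => τ + 60) (by fun_prop) h60).continuousWithinAt
  have c7 : ContinuousWithinAt (fun τ : ℂ => -(JJ AF 23 τ (s : ℂ) - JJ AF 23 τ I).im) LH
      (t : ℂ) :=
    (Complex.continuous_im.continuousAt.comp_continuousWithinAt (c1.sub c2)).neg
  have c8 : ContinuousWithinAt (fun τ : ℂ =>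
      (3601 / (τ + 60) ^ 2 * (JJ AG 23 (RR τ) (s' : ℂ) - JJ AG 23 (RR τ) I)
        - (τ + 60)⁻¹ * (Phi AG 23 (s' : ℂ) - Phi AG 23 I)).im) LH (t : ℂ) :=
    Complex.continuous_im.continuousAt.comp_continuousWithinAt
      ((c5.mul (c3.sub c4)).sub (c6.mul continuousWithinAt_const))
  exact c7.add c8

lemma DD_real {s s' t t' : ℝ} (ht' : (60 * t - 1) / (t + 60) = t') :
    DD s s' (t : ℂ) =
      val AF 23 t (if s < t then 1 else 0) (if s < -1 then 1 else 0)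
      - 3601 / (t + 60) ^ 2 * val AG 23 t' (if s' < t' then 1 else 0) (if s' < -1 then 1 else 0)
      - (t + 60)⁻¹ * ((if s' < -1 then Real.pi else 0) - (23 + Real.pi / 4)) := by
  unfold DD
  have hRt : RR (t : ℂ) = (t' : ℂ) := by rw [RR_ofReal, ht']
  have e1 : 3601 / ((t : ℂ) + 60) ^ 2 = ((3601 / (t + 60) ^ 2 : ℝ) : ℂ) := by push_cast; ring
  have e2 : ((t : ℂ) + 60)⁻¹ = (((t + 60)⁻¹ : ℝ) : ℂ) := by push_cast; ring
  rw [hRt, e1, e2, Complex.sub_im, Complex.sub_im, Complex.im_ofReal_mul,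
    Complex.im_ofReal_mul, Complex.sub_im, Complex.sub_im, JJ_real_im, JJ_real_im, JJ_I_im,
    JJ_I_im, Phi_ofReal_im, Phi_I_im]
  unfold val
  split_ifs <;> ring

/-- real part of `Φ` differences at the tips -/
noncomputable def dc (s s' : ℝ) : ℝ :=
  (Phi AF 23 (s : ℂ) - Phi AF 23 I).re - (Phi AG 23 (s' : ℂ) - Phi AG 23 I).re

lemma Phi_I_re (A B : ℝ) : (Phi A B I).re = A + (Complex.log (I + 1)).re := by
  unfold Phi
  have e : -(A : ℂ) * I ^ 2 = ((A : ℝ) : ℂ) := by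
    rw [Complex.I_sq]
    ring
  rw [e, Complex.add_re, Complex.add_re, Complex.ofReal_re]
  simp

lemma AG_lt_AF : AG < AF := by
  unfold AG AF
  norm_num

lemma AF_pos : 0 < AF := by
  unfold AF
  norm_num

lemma AG_pos : 0 < AG := by
  unfold AG
  norm_num

lemma dc_neg {s s' : ℝ} (hs' : -2 * AG * s' + 23 + (s' + 1)⁻¹ = 0)
    (hside : (s < -1 ∧ s' < -1) ∨ (-1 < s ∧ -1 < s')) : dc s s' < 0 := by
  have h := phi_le_of_crit hs' hside
  have h2 : 0 ≤ AG * (s - s') ^ 2 := mul_nonneg AG_pos.le (sq_nonneg _)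
  unfold dc
  rw [Complex.sub_re, Complex.sub_re, Phi_ofReal_re, Phi_ofReal_re, Phi_I_re, Phi_I_re]
  have h3 : phi AF 23 s = phi AG 23 s - (AF - AG) * s ^ 2 := by
    unfold phi
    ring
  rw [h3]
  have h4 : 0 < (AF - AG) * (s ^ 2 + 1) := by
    apply mul_pos (by linarith [AG_lt_AF]) (by positivity)
  linarith

/-- the tips of `Φ_F` -/
lemma exists_tips : ∃ s₁ s₂ : ℝ, Crit AF 23 s₁ s₂ ∧ 0 < s₂ ∧ s₂ < 1501 / 35 := by
  have hc : ∀ a b : ℝ, (b < -1 ∨ -1 < a) →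
      ContinuousOn (fun x : ℝ => -2 * AF * x + 23 + (x + 1)⁻¹) (Icc a b) := by
    intro a b hab
    apply ContinuousOn.add (by fun_prop)
    apply ContinuousOn.inv₀ (by fun_prop)
    intro x hx h
    rcases hab with h1 | h1
    · linarith [hx.2]
    · linarith [hx.1]
  have h1 : (0 : ℝ) ∈ Icc (-2 * AF * (-101 / 100) + 23 + ((-101 / 100 : ℝ) + 1)⁻¹)
      (-2 * AF * (-2) + 23 + ((-2 : ℝ) + 1)⁻¹) := by
    unfold AF
    constructor <;> norm_num
  obtain ⟨s₁, hs1, hs1'⟩ := intermediate_value_Icc' (by norm_num : (-2 : ℝ) ≤ -101 / 100)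
    (hc (-2) (-101 / 100) (Or.inl (by norm_num))) h1
  have h2 : (0 : ℝ) ∈ Icc (-2 * AF * (1501 / 35) + 23 + ((1501 / 35 : ℝ) + 1)⁻¹)
      (-2 * AF * 0 + 23 + ((0 : ℝ) + 1)⁻¹) := by
    unfold AF
    constructor <;> norm_num
  obtain ⟨s₂, hs2, hs2'⟩ := intermediate_value_Icc' (by norm_num : (0 : ℝ) ≤ 1501 / 35)
    (hc 0 (1501 / 35) (Or.inr (by norm_num))) h2
  simp only at hs1' hs2'
  refine ⟨s₁, s₂, ⟨AF_pos, by linarith [hs1.2], by linarith [hs2.1], hs1', hs2'⟩, ?_, ?_⟩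
  · rcases hs2.1.eq_or_lt with h | h
    · exfalso
      rw [← h] at hs2'
      norm_num at hs2'
    · exact h
  · rcases hs2.2.eq_or_lt with h | h
    · exfalso
      rw [h] at hs2'
      unfold AF at hs2'
      norm_num at hs2'
    · exact h

lemma crit_G : Crit AG 23 (-(25 / 24)) 24 := by
  refine ⟨AG_pos, by norm_num, by norm_num, ?_, ?_⟩ <;>
  · unfold AG
    norm_num

/-- the poles -/
noncomputable def pole (t ε : ℝ) : ℂ := (t : ℂ) - (ε : ℂ) * I

lemma pole_im (t ε : ℝ) : (pole t ε).im = -ε := by simp [pole]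

lemma tendsto_pole (t : ℝ) : Tendsto (pole t) (𝓝[>] 0) (𝓝[LH] (t : ℂ)) := by
  rw [tendsto_nhdsWithin_iff]
  refine ⟨?_, ?_⟩
  · have hc : Continuous (pole t) := by
      unfold pole
      fun_prop
    have := hc.tendsto 0
    simp only [pole, Complex.ofReal_zero, zero_mul, sub_zero] at this
    exact this.mono_left nhdsWithin_le_nhds
  · filter_upwards [self_mem_nhdsWithin] with ε hε
    have : (0 : ℝ) < ε := hε
    show (pole t ε).im ≤ 0
    rw [pole_im]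
    linarith

lemma cramer {x11 x21 x12 x22 d1 d2 : ℝ} (h11 : 0 < x11) (h21 : x21 < 0) (h12 : x12 < 0)
    (h22 : 0 < x22) (hdet : 0 < x11 * x22 - x21 * x12) (k1 : d1 < 0) (k2 : d2 < 0) :
    ∃ a₁ a₂ : ℝ, 0 < a₁ ∧ 0 < a₂ ∧ d1 + a₁ * x11 + a₂ * x12 = 0 ∧
      d2 + a₁ * x21 + a₂ * x22 = 0 := by
  refine ⟨(-d1 * x22 + d2 * x12) / (x11 * x22 - x21 * x12),
    (-d2 * x11 + d1 * x21) / (x11 * x22 - x21 * x12), ?_, ?_, ?_, ?_⟩
  · apply div_pos _ hdet
    have := mul_pos (neg_pos.mpr k1) h22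
    have := mul_pos_of_neg_of_neg k2 h12
    linarith
  · apply div_pos _ hdet
    have := mul_pos (neg_pos.mpr k2) h11
    have := mul_pos_of_neg_of_neg k1 h21
    linarith
  · have hD := hdet.ne'
    have e : (-d1 * x22 + d2 * x12) * x11 + (-d2 * x11 + d1 * x21) * x12 =
        -d1 * (x11 * x22 - x21 * x12) := by ring
    rw [div_mul_eq_mul_div, div_mul_eq_mul_div, add_assoc, ← add_div, e, mul_div_assoc,
      div_self hD]
    ring
  · have hD := hdet.ne'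
    have e : (-d1 * x22 + d2 * x12) * x21 + (-d2 * x11 + d1 * x21) * x22 =
        -d2 * (x11 * x22 - x21 * x12) := by ring
    rw [div_mul_eq_mul_div, div_mul_eq_mul_div, add_assoc, ← add_div, e, mul_div_assoc,
      div_self hD]
    ring

theorem exists_coeffs {s₁ s₂ : ℝ} (hC : Crit AF 23 s₁ s₂) (h0 : 0 < s₂)
    (h42 : s₂ < 1501 / 35) :
    ∃ ε : ℝ, 0 < ε ∧ ∃ a₁ a₂ : ℝ, 0 < a₁ ∧ 0 < a₂ ∧
      dc s₁ (-(25 / 24)) + a₁ * DD s₁ (-(25 / 24)) (pole (-(1830 / 1831)) ε)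
        + a₂ * DD s₁ (-(25 / 24)) (pole (1501 / 35) ε) = 0 ∧
      dc s₂ 24 + a₁ * DD s₂ 24 (pole (-(1830 / 1831)) ε)
        + a₂ * DD s₂ 24 (pole (1501 / 35) ε) = 0 := by
  have hs1 := hC.h1
  have hs2 := hC.h2
  have r1 : (60 * (-(1830 / 1831) : ℝ) - 1) / (-(1830 / 1831) + 60) = -(31 / 30) := by norm_num
  have r2 : (60 * (1501 / 35 : ℝ) - 1) / (1501 / 35 + 60) = 25 := by norm_num
  -- the limits
  have c11 : Tendsto (fun ε => DD s₁ (-(25 / 24)) (pole (-(1830 / 1831)) ε)) (𝓝[>] 0)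
      (𝓝 (DD s₁ (-(25 / 24)) ((-(1830 / 1831) : ℝ) : ℂ))) :=
    (continuousWithinAt_DD (by norm_num) (by norm_num) (by linarith) r1 (by norm_num)
      (by norm_num)).tendsto.comp (tendsto_pole _)
  have c21 : Tendsto (fun ε => DD s₂ 24 (pole (-(1830 / 1831)) ε)) (𝓝[>] 0)
      (𝓝 (DD s₂ 24 ((-(1830 / 1831) : ℝ) : ℂ))) :=
    (continuousWithinAt_DD (by norm_num) (by norm_num) (by linarith) r1 (by norm_num)
      (by norm_num)).tendsto.comp (tendsto_pole _)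
  have c12 : Tendsto (fun ε => DD s₁ (-(25 / 24)) (pole (1501 / 35) ε)) (𝓝[>] 0)
      (𝓝 (DD s₁ (-(25 / 24)) ((1501 / 35 : ℝ) : ℂ))) :=
    (continuousWithinAt_DD (by norm_num) (by norm_num) (by linarith) r2 (by norm_num)
      (by norm_num)).tendsto.comp (tendsto_pole _)
  have c22 : Tendsto (fun ε => DD s₂ 24 (pole (1501 / 35) ε)) (𝓝[>] 0)
      (𝓝 (DD s₂ 24 ((1501 / 35 : ℝ) : ℂ))) :=
    (continuousWithinAt_DD (by norm_num) (by norm_num) (by linarith) r2 (by norm_num)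
      (by norm_num)).tendsto.comp (tendsto_pole _)
  have v11 : DD s₁ (-(25 / 24)) ((-(1830 / 1831) : ℝ) : ℂ) = D11 := by
    rw [DD_real r1, if_pos (by linarith), if_pos hs1, if_pos (by norm_num),
      if_pos (by norm_num), if_pos (by norm_num)]
    rfl
  have v21 : DD s₂ 24 ((-(1830 / 1831) : ℝ) : ℂ) = D21 := by
    rw [DD_real r1, if_neg (by linarith), if_neg (by linarith), if_neg (by norm_num),
      if_neg (by norm_num), if_neg (by norm_num)]
    rfl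
  have v12 : DD s₁ (-(25 / 24)) ((1501 / 35 : ℝ) : ℂ) = D12 := by
    rw [DD_real r2, if_pos (by linarith), if_pos hs1, if_pos (by norm_num),
      if_pos (by norm_num), if_pos (by norm_num)]
    rfl
  have v22 : DD s₂ 24 ((1501 / 35 : ℝ) : ℂ) = D22 := by
    rw [DD_real r2, if_pos (by linarith), if_neg (by linarith), if_pos (by norm_num),
      if_neg (by norm_num), if_neg (by norm_num)]
    rfl
  rw [v11] at c11
  rw [v21] at c21
  rw [v12] at c12
  rw [v22] at c22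
  have e11 := c11.eventually (lt_mem_nhds (show (0 : ℝ) < D11 by linarith [D11_lb]))
  have e21 := c21.eventually (gt_mem_nhds D21_bd.2)
  have e12 := c12.eventually (gt_mem_nhds D12_bd.2)
  have e22 := c22.eventually (lt_mem_nhds (show (0 : ℝ) < D22 by linarith [D22_lb]))
  have edet := ((c11.mul c22).sub (c21.mul c12)).eventually (lt_mem_nhds det_pos)
  obtain ⟨ε, ⟨⟨⟨⟨⟨h11, h21⟩, h12⟩, h22⟩, hdet⟩, hε⟩⟩ :=
    (((((e11.and e21).and e12).and e22).and edet).and self_mem_nhdsWithin).exists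
  have hε' : (0 : ℝ) < ε := hε
  have k1 : dc s₁ (-(25 / 24)) < 0 :=
    dc_neg crit_G.c1 (Or.inl ⟨hs1, by norm_num⟩)
  have k2 : dc s₂ 24 < 0 := dc_neg crit_G.c2 (Or.inr ⟨hs2, by norm_num⟩)
  obtain ⟨a₁, a₂, ha₁, ha₂, q1, q2⟩ := cramer h11 h21 h12 h22 hdet k1 k2
  exact ⟨ε, hε', a₁, a₂, ha₁, ha₂, q1, q2⟩

end Pool.Agent.W769.HU
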