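import Mathlib

/-!
The plane minus two parallel rays.
-/

open Complex Set Filter Topology

namespace Pool.Agent.W769.HU

/-- the plane minus the rays `(-∞, T₂]` and `(-∞, T₁] + π i` -/
def Om (T₁ T₂ : ℝ) : Set ℂ :=
  {z | ¬ (z.im = 0 ∧ z.re ≤ T₂) ∧ ¬ (z.im = Real.pi ∧ z.re ≤ T₁)}

lemma isOpen_Om (T₁ T₂ : ℝ) : IsOpen (Om T₁ T₂) := by
  have h1 : IsClosed {z : ℂ | z.im = 0 ∧ z.re ≤ T₂} :=
    (isClosed_eq Complex.continuous_im continuous_const).inter
      (isClosed_le Complex.continuous_re continuous_const)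
  have h2 : IsClosed {z : ℂ | z.im = Real.pi ∧ z.re ≤ T₁} :=
    (isClosed_eq Complex.continuous_im continuous_const).inter
      (isClosed_le Complex.continuous_re continuous_const)
  exact h1.isOpen_compl.inter h2.isOpen_compl

lemma Om_mono_re {T₁ T₂ : ℝ} {z w : ℂ} (hz : z ∈ Om T₁ T₂) (him : w.im = z.im)
    (hre : z.re ≤ w.re) : w ∈ Om T₁ T₂ := by
  refine ⟨?_, ?_⟩
  · rintro ⟨h1, h2⟩
    exact hz.1 ⟨him ▸ h1, hre.trans h2⟩
  · rintro ⟨h1, h2⟩
    exact hz.2 ⟨him ▸ h1, hre.trans h2⟩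

lemma Om_of_re {T₁ T₂ : ℝ} {w : ℂ} (h1 : T₁ < w.re) (h2 : T₂ < w.re) : w ∈ Om T₁ T₂ :=
  ⟨fun h => absurd h.2 (not_le.mpr h2), fun h => absurd h.2 (not_le.mpr h1)⟩

lemma Om_ne_univ (T₁ T₂ : ℝ) : Om T₁ T₂ ≠ univ := by
  intro h
  have : (T₂ : ℂ) ∈ Om T₁ T₂ := by rw [h]; trivial
  exact this.1 ⟨by simp, by simp⟩

/-- the pushing map -/
noncomputable def pushR (M : ℝ) (z : ℂ) : ℂ := ((max z.re M - z.re : ℝ) : ℂ)

lemma continuous_pushR (M : ℝ) : Continuous (pushR M) := by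
  unfold pushR
  fun_prop

lemma contractible_Om (T₁ T₂ : ℝ) : ContractibleSpace (Om T₁ T₂) := by
  set M : ℝ := max T₁ T₂ + 1 with hM
  have hM1 : T₁ < M := by
    have := le_max_left T₁ T₂
    linarith
  have hM2 : T₂ < M := by
    have := le_max_right T₁ T₂
    linarith
  -- the pushed point
  have hpush : ∀ (s : ℝ) (z : ℂ), 0 ≤ s → s ≤ 1 → z ∈ Om T₁ T₂ →
      z + (s : ℂ) * pushR M z ∈ Om T₁ T₂ := by
    intro s z h0 _ hz
    apply Om_mono_re hz
    · simp [pushR]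
    · have : 0 ≤ s * (max z.re M - z.re) := mul_nonneg h0 (by
        have := le_max_left z.re M
        linarith)
      simpa [pushR] using this
  let r : C(Om T₁ T₂, Om T₁ T₂) :=
    ⟨fun z => ⟨z.1 + ((1 : ℝ) : ℂ) * pushR M z.1, hpush 1 z.1 zero_le_one le_rfl z.2⟩, by
      apply Continuous.subtype_mk
      have := continuous_pushR M
      fun_prop⟩
  have hrre : ∀ z : Om T₁ T₂, M ≤ (r z).1.re := by
    intro z
    show M ≤ (z.1 + ((1 : ℝ) : ℂ) * pushR M z.1).re
    simp [pushR]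
  have H1 : ContinuousMap.Homotopic (ContinuousMap.id (Om T₁ T₂)) r := by
    refine ⟨{
      toFun := fun p => ⟨p.2.1 + ((p.1 : ℝ) : ℂ) * pushR M p.2.1,
        hpush p.1 p.2.1 p.1.2.1 p.1.2.2 p.2.2⟩
      continuous_toFun := ?_
      map_zero_left := ?_
      map_one_left := ?_ }⟩
    · apply Continuous.subtype_mk
      have := continuous_pushR M
      fun_prop
    · intro z
      apply Subtype.ext
      simp
    · intro z
      apply Subtype.ext
      simp [r]
  let p0 : Om T₁ T₂ := ⟨(M : ℂ), Om_of_re (by simpa using hM1) (by simpa using hM2)⟩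
  have H2 : ContinuousMap.Homotopic r (ContinuousMap.const (Om T₁ T₂) p0) := by
    refine ⟨{
      toFun := fun p => ⟨(1 - ((p.1 : ℝ) : ℂ)) * (r p.2).1 + ((p.1 : ℝ) : ℂ) * (M : ℂ), ?_⟩
      continuous_toFun := ?_
      map_zero_left := ?_
      map_one_left := ?_ }⟩
    · have hre : M ≤ ((1 - ((p.1 : ℝ) : ℂ)) * (r p.2).1 + ((p.1 : ℝ) : ℂ) * (M : ℂ)).re := by
        have e : ((1 - ((p.1 : ℝ) : ℂ)) * (r p.2).1 + ((p.1 : ℝ) : ℂ) * (M : ℂ)).re
            = (1 - (p.1 : ℝ)) * (r p.2).1.re + (p.1 : ℝ) * M := by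
          simp
        rw [e]
        have h1 := hrre p.2
        have h2 : 0 ≤ 1 - (p.1 : ℝ) := by linarith [p.1.2.2]
        nlinarith
      exact Om_of_re (by linarith) (by linarith)
    · apply Continuous.subtype_mk
      have := r.continuous
      fun_prop
    · intro z
      apply Subtype.ext
      simp
    · intro z
      apply Subtype.ext
      simp [p0]
  rw [contractible_iff_id_nullhomotopic]
  exact ⟨p0, H1.trans H2⟩

lemma isSimplyConnected_Om (T₁ T₂ : ℝ) : IsSimplyConnected (Om T₁ T₂) := by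
  have := contractible_Om T₁ T₂
  show SimplyConnectedSpace (Om T₁ T₂)
  infer_instance

lemma isPreconnected_Om (T₁ T₂ : ℝ) : IsPreconnected (Om T₁ T₂) :=
  (isSimplyConnected_Om T₁ T₂).isPathConnected.isConnected.isPreconnected

end Pool.Agent.W769.HU
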