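import Pool.Agent.W769.HU.Image

open Complex Set Filter Topology

namespace Pool.Agent.W769.HU

/-- the harmonic map with real part `Re P` and imaginary part `Im Φ` -/
noncomputable def harm (A B : ℝ) (P : ℂ → ℂ) (w : ℂ) : ℂ :=
  (((P w).re : ℝ) : ℂ) + (((Phi A B w).im : ℝ) : ℂ) * I

lemma harm_re (A B : ℝ) (P : ℂ → ℂ) (w : ℂ) : (harm A B P w).re = (P w).re := by
  simp [harm]

lemma harm_im (A B : ℝ) (P : ℂ → ℂ) (w : ℂ) : (harm A B P w).im = (Phi A B w).im := by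
  simp [harm]

variable {A B s₁ s₂ : ℝ}

/-- `Re P` along the horizontal line at height `v` -/
noncomputable def psi (A B : ℝ) (P : ℂ → ℂ) (v u : ℝ) : ℝ :=
  (P (Psi A B ((u : ℂ) + (v : ℂ) * I))).re

lemma hasDerivAt_psi (hC : Crit A B s₁ s₂) {P W : ℂ → ℂ}
    (hP : ∀ w ∈ UH, HasDerivAt P (W w * dPhi A B w) w) {v u : ℝ}
    (hu : (u : ℂ) + (v : ℂ) * I ∈ Om (phi A B s₁) (phi A B s₂)) :
    HasDerivAt (psi A B P v) (W (Psi A B ((u : ℂ) + (v : ℂ) * I))).re u := by
  have h1 : HasDerivAt (fun t : ℝ => (t : ℂ) + (v : ℂ) * I) 1 u :=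
    (Complex.ofRealCLM.hasDerivAt (x := u)).add_const _
  have h2 := (hasDerivAt_Psi hC hu).comp u h1
  have h3 := (hP _ (Psi_mem hC hu)).comp u h2
  have hne := dPhi_ne_zero (B := B) hC.hA (Psi_mem hC hu)
  have h4 := (Complex.reCLM.hasFDerivAt
    (x := P (Psi A B ((u : ℂ) + (v : ℂ) * I)))).comp_hasDerivAt u h3
  have e : (W (Psi A B ((u : ℂ) + (v : ℂ) * I)) * dPhi A B (Psi A B ((u : ℂ) + (v : ℂ) * I)) *
      ((dPhi A B (Psi A B ((u : ℂ) + (v : ℂ) * I)))⁻¹ * 1)) =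
      W (Psi A B ((u : ℂ) + (v : ℂ) * I)) := by
    field_simp
  rw [e] at h4
  have h5 : HasDerivAt (fun x : ℝ => (P (Psi A B ((x : ℂ) + (v : ℂ) * I))).re)
      (W (Psi A B ((u : ℂ) + (v : ℂ) * I))).re u := by
    simpa [Function.comp_def] using h4
  exact h5

lemma seg_mem {T₁ T₂ v u u' : ℝ} (h : (u : ℂ) + (v : ℂ) * I ∈ Om T₁ T₂) (huu : u ≤ u') :
    (u' : ℂ) + (v : ℂ) * I ∈ Om T₁ T₂ :=
  Om_mono_re h (by simp) (by simpa using huu)

/-- growth of `psi` on an interval -/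
lemma psi_growth (hC : Crit A B s₁ s₂) {P W : ℂ → ℂ}
    (hP : ∀ w ∈ UH, HasDerivAt P (W w * dPhi A B w) w) {m : ℝ}
    (hW : ∀ w ∈ UH, m ≤ (W w).re) {v u u' : ℝ}
    (hu : (u : ℂ) + (v : ℂ) * I ∈ Om (phi A B s₁) (phi A B s₂)) (huu : u ≤ u') :
    m * (u' - u) ≤ psi A B P v u' - psi A B P v u := by
  have hd : ∀ x ∈ Icc u u', HasDerivAt (psi A B P v)
      (W (Psi A B ((x : ℂ) + (v : ℂ) * I))).re x := fun x hx =>
    hasDerivAt_psi hC hP (seg_mem hu hx.1)
  apply Convex.mul_sub_le_image_sub_of_le_deriv (convex_Icc u u')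
    (fun x hx => (hd x hx).continuousAt.continuousWithinAt)
    (fun _ hx => ?_) (fun _ hx => ?_) u (left_mem_Icc.mpr huu) u' (right_mem_Icc.mpr huu) huu
  · rw [interior_Icc] at hx
    exact (hd _ ⟨hx.1.le, hx.2.le⟩).differentiableAt.differentiableWithinAt
  · rw [interior_Icc] at hx
    rw [(hd _ ⟨hx.1.le, hx.2.le⟩).deriv]
    exact hW _ (Psi_mem hC (seg_mem hu hx.1.le))

lemma psi_continuousOn (hC : Crit A B s₁ s₂) {P W : ℂ → ℂ}
    (hP : ∀ w ∈ UH, HasDerivAt P (W w * dPhi A B w) w) {v u u' : ℝ}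
    (hu : (u : ℂ) + (v : ℂ) * I ∈ Om (phi A B s₁) (phi A B s₂)) :
    ContinuousOn (psi A B P v) (Icc u u') :=
  fun x hx => (hasDerivAt_psi hC hP (seg_mem hu hx.1)).continuousAt.continuousWithinAt

lemma psi_eq (hA : 0 < A) {P : ℂ → ℂ} {w : ℂ} (hw : w ∈ UH) :
    psi A B P (Phi A B w).im (Phi A B w).re = (P w).re := by
  unfold psi
  rw [Complex.re_add_im, Psi_Phi hA hw]

lemma tendsto_psi_tip (hC : Crit A B s₁ s₂) {P : ℂ → ℂ} {s v T : ℝ} (hs1 : s ≠ -1)
    (hs : -2 * A * s + B + (s + 1)⁻¹ = 0) (hv : (Phi A B (s : ℂ)).im = v)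
    (hO : ∀ u : ℝ, phi A B s < u → (u : ℂ) + (v : ℂ) * I ∈ Om (phi A B s₁) (phi A B s₂))
    (hT : Tendsto (fun w => (P w).re) (𝓝[UH] (s : ℂ)) (𝓝 T)) :
    Tendsto (psi A B P v) (𝓝[>] (phi A B s)) (𝓝 T) := by
  have h1 := tendsto_Psi_tip hC hs1 hs
  have h2 : Tendsto (fun u : ℝ => (u : ℂ) + (v : ℂ) * I) (𝓝[>] (phi A B s))
      (𝓝[Om (phi A B s₁) (phi A B s₂)] (Phi A B (s : ℂ))) := by
    rw [tendsto_nhdsWithin_iff]
    refine ⟨?_, ?_⟩
    · have e : Phi A B (s : ℂ) = ((phi A B s : ℝ) : ℂ) + (v : ℂ) * I := by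
        apply Complex.ext
        · simp [Phi_ofReal_re]
        · simp [hv]
      rw [e]
      have hc : Continuous (fun u : ℝ => (u : ℂ) + (v : ℂ) * I) := by fun_prop
      exact (hc.tendsto (phi A B s)).mono_left nhdsWithin_le_nhds
    · filter_upwards [self_mem_nhdsWithin] with u hu
      exact hO u hu
  exact hT.comp (h1.comp h2)

/-- heights of the two rays -/
lemma ray1 {A B : ℝ} {s₁ s₂ : ℝ} (u : ℝ) (hu : phi A B s₁ < u) :
    (u : ℂ) + ((Real.pi : ℝ) : ℂ) * I ∈ Om (phi A B s₁) (phi A B s₂) := by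
  have hpi := Real.pi_pos
  refine ⟨fun h => ?_, fun h => ?_⟩
  · have := h.1
    simp at this
  · have := h.2
    simp at this
    linarith

lemma ray2 {A B : ℝ} {s₁ s₂ : ℝ} (u : ℝ) (hu : phi A B s₂ < u) :
    (u : ℂ) + ((0 : ℝ) : ℂ) * I ∈ Om (phi A B s₁) (phi A B s₂) := by
  have hpi := Real.pi_pos
  refine ⟨fun h => ?_, fun h => ?_⟩
  · have := h.2
    simp at this
    linarith
  · have := h.1
    simp at this
    linarith

lemma harm_injOn (hC : Crit A B s₁ s₂) {P W : ℂ → ℂ}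
    (hP : ∀ w ∈ UH, HasDerivAt P (W w * dPhi A B w) w) {m : ℝ} (hm : 0 < m)
    (hW : ∀ w ∈ UH, m ≤ (W w).re) : InjOn (harm A B P) UH := by
  -- key: at equal heights, the real parts are ordered
  have key : ∀ w ∈ UH, ∀ w' ∈ UH, (Phi A B w).im = (Phi A B w').im →
      (Phi A B w).re < (Phi A B w').re → (P w).re < (P w').re := by
    intro w hw w' hw' him hre
    have hmem : (((Phi A B w).re : ℝ) : ℂ) + (((Phi A B w).im : ℝ) : ℂ) * I ∈
        Om (phi A B s₁) (phi A B s₂) := by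
      rw [Complex.re_add_im]
      exact Phi_mem_Om hC hw
    have hg := psi_growth hC hP hW hmem hre.le
    rw [psi_eq hC.hA hw] at hg
    rw [him, psi_eq hC.hA hw'] at hg
    have : 0 < m * ((Phi A B w').re - (Phi A B w).re) := mul_pos hm (by linarith)
    linarith
  intro w hw w' hw' h
  have hre : (P w).re = (P w').re := by
    have := congrArg Complex.re h
    rwa [harm_re, harm_re] at this
  have him : (Phi A B w).im = (Phi A B w').im := by
    have := congrArg Complex.im h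
    rwa [harm_im, harm_im] at this
  apply Phi_injOn (B := B) hC.hA hw hw'
  apply Complex.ext _ him
  rcases lt_trichotomy (Phi A B w).re (Phi A B w').re with hlt | heq | hgt
  · have := key w hw w' hw' him hlt
    linarith
  · exact heq
  · have := key w' hw' w hw him.symm hgt
    linarith

/-- limit at the tip is smaller than all values on the ray -/
lemma tip_lt (hC : Crit A B s₁ s₂) {P W : ℂ → ℂ}
    (hP : ∀ w ∈ UH, HasDerivAt P (W w * dPhi A B w) w) {m : ℝ} (hm : 0 < m)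
    (hW : ∀ w ∈ UH, m ≤ (W w).re) {s v T : ℝ} (hs1 : s ≠ -1)
    (hs : -2 * A * s + B + (s + 1)⁻¹ = 0) (hv : (Phi A B (s : ℂ)).im = v)
    (hO : ∀ u : ℝ, phi A B s < u → (u : ℂ) + (v : ℂ) * I ∈ Om (phi A B s₁) (phi A B s₂))
    (hT : Tendsto (fun w => (P w).re) (𝓝[UH] (s : ℂ)) (𝓝 T)) {w : ℂ} (hw : w ∈ UH)
    (hwv : (Phi A B w).im = v) : T < (P w).re := by
  have hbu : phi A B s < (Phi A B w).re := by
    have := re_lt_of_im_eq (B := B) hC.hA hs1 hw (by rw [hwv, hv])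
    rwa [Phi_ofReal_re] at this
  have htip := tendsto_psi_tip hC hs1 hs hv hO hT
  obtain ⟨c, hc1, hc2⟩ := exists_between hbu
  have hpsic : psi A B P v c < (P w).re := by
    have hg := psi_growth hC hP hW (hO c hc1) hc2.le
    rw [← hwv, psi_eq hC.hA hw, hwv] at hg
    have : 0 < m * ((Phi A B w).re - c) := mul_pos hm (by linarith)
    linarith
  have hle : T ≤ psi A B P v c := by
    apply le_of_tendsto htip
    filter_upwards [Ioo_mem_nhdsGT hc1] with u hu
    have hg := psi_growth hC hP hW (hO u hu.1) hu.2.le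
    have : 0 ≤ m * (c - u) := mul_nonneg hm.le (by linarith [hu.2])
    linarith
  linarith

lemma surj_of_start (hC : Crit A B s₁ s₂) {P W : ℂ → ℂ}
    (hP : ∀ w ∈ UH, HasDerivAt P (W w * dPhi A B w) w) {m : ℝ} (hm : 0 < m)
    (hW : ∀ w ∈ UH, m ≤ (W w).re) {v x u₀ : ℝ}
    (hu : (u₀ : ℂ) + (v : ℂ) * I ∈ Om (phi A B s₁) (phi A B s₂))
    (hx : psi A B P v u₀ ≤ x) :
    ∃ w ∈ UH, harm A B P w = (x : ℂ) + (v : ℂ) * I := by
  set u₁ : ℝ := u₀ + (x - psi A B P v u₀) / m with hu₁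
  have h01 : u₀ ≤ u₁ := by
    have : 0 ≤ (x - psi A B P v u₀) / m := div_nonneg (by linarith) hm.le
    linarith
  have hx1 : x ≤ psi A B P v u₁ := by
    have hg := psi_growth hC hP hW hu h01
    have e : m * (u₁ - u₀) = x - psi A B P v u₀ := by
      rw [hu₁]
      field_simp
      ring
    rw [e] at hg
    linarith
  obtain ⟨u, hu', hux⟩ := intermediate_value_Icc h01 (psi_continuousOn hC hP hu) ⟨hx, hx1⟩
  have hmem := seg_mem hu hu'.1
  refine ⟨Psi A B ((u : ℂ) + (v : ℂ) * I), Psi_mem hC hmem, ?_⟩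
  apply Complex.ext
  · rw [harm_re]
    simpa [psi] using hux
  · rw [harm_im, Phi_Psi hC hmem]
    simp

theorem harm_image (hC : Crit A B s₁ s₂) {P W : ℂ → ℂ}
    (hP : ∀ w ∈ UH, HasDerivAt P (W w * dPhi A B w) w) {m : ℝ} (hm : 0 < m)
    (hW : ∀ w ∈ UH, m ≤ (W w).re) {T₁ T₂ : ℝ}
    (hT₁ : Tendsto (fun w => (P w).re) (𝓝[UH] (s₁ : ℂ)) (𝓝 T₁))
    (hT₂ : Tendsto (fun w => (P w).re) (𝓝[UH] (s₂ : ℂ)) (𝓝 T₂)) :
    harm A B P '' UH = Om T₁ T₂ := by
  have hs1 : s₁ ≠ -1 := by linarith [hC.h1]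
  have hs2 : s₂ ≠ -1 := by
    have := hC.h2
    intro h
    linarith
  have hv1 : (Phi A B (s₁ : ℂ)).im = Real.pi := by rw [Phi_ofReal_im, if_pos hC.h1]
  have hv2 : (Phi A B (s₂ : ℂ)).im = 0 := by
    rw [Phi_ofReal_im, if_neg (by linarith [hC.h2])]
  apply Subset.antisymm
  · rintro _ ⟨w, hw, rfl⟩
    refine ⟨?_, ?_⟩
    · rintro ⟨h1, h2⟩
      rw [harm_im] at h1
      rw [harm_re] at h2
      have := tip_lt hC hP hm hW hs2 hC.c2 hv2 ray2 hT₂ hw h1
      linarith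
    · rintro ⟨h1, h2⟩
      rw [harm_im] at h1
      rw [harm_re] at h2
      have := tip_lt hC hP hm hW hs1 hC.c1 hv1 ray1 hT₁ hw h1
      linarith
  · intro z hz
    -- general statement with a starting point
    suffices h : ∃ u₀ : ℝ, (u₀ : ℂ) + (z.im : ℂ) * I ∈ Om (phi A B s₁) (phi A B s₂) ∧
        psi A B P z.im u₀ ≤ z.re by
      obtain ⟨u₀, h1, h2⟩ := h
      obtain ⟨w, hw, hwz⟩ := surj_of_start hC hP hm hW h1 h2
      rw [Complex.re_add_im] at hwz
      exact ⟨w, hw, hwz⟩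
    by_cases h0 : z.im = 0
    · have hre : T₂ < z.re := by
        by_contra hcon
        exact hz.1 ⟨h0, not_lt.mp hcon⟩
      have htip := tendsto_psi_tip hC hs2 hC.c2 hv2 ray2 hT₂
      have hev := (htip.eventually (gt_mem_nhds hre)).and self_mem_nhdsWithin
      obtain ⟨u, hu1, hu2⟩ := hev.exists
      rw [h0]
      exact ⟨u, ray2 u hu2, hu1.le⟩
    · by_cases hpi : z.im = Real.pi
      · have hre : T₁ < z.re := by
          by_contra hcon
          exact hz.2 ⟨hpi, not_lt.mp hcon⟩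
        have htip := tendsto_psi_tip hC hs1 hC.c1 hv1 ray1 hT₁
        have hev := (htip.eventually (gt_mem_nhds hre)).and self_mem_nhdsWithin
        obtain ⟨u, hu1, hu2⟩ := hev.exists
        rw [hpi]
        exact ⟨u, ray1 u hu2, hu1.le⟩
      · -- the whole line is in the domain
        have hall : ∀ u : ℝ, (u : ℂ) + (z.im : ℂ) * I ∈ Om (phi A B s₁) (phi A B s₂) := by
          intro u
          refine ⟨fun h => h0 ?_, fun h => hpi ?_⟩
          · simpa using h.1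
          · simpa using h.1
        set p := psi A B P z.im 0 with hp
        by_cases hle : p ≤ z.re
        · exact ⟨0, hall 0, hle⟩
        · push Not at hle
          set u₀ : ℝ := (z.re - p) / m with hu₀
          have hneg : u₀ ≤ 0 := div_nonpos_of_nonpos_of_nonneg (by linarith) hm.le
          refine ⟨u₀, hall u₀, ?_⟩
          have hg := psi_growth hC hP hW (hall u₀) hneg
          have e : m * (0 - u₀) = p - z.re := by
            rw [hu₀]
            field_simp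
            ring
          rw [e] at hg
          linarith

end Pool.Agent.W769.HU
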