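import Pool.Agent.W769.HU.Phi
import Pool.Agent.W769.HU.Dom

open Complex Set Filter Topology

namespace Pool.Agent.W769.HU

/-- critical points of the boundary function -/
structure Crit (A B s₁ s₂ : ℝ) : Prop where
  hA : 0 < A
  h1 : s₁ < -1
  h2 : -1 < s₂
  c1 : -2 * A * s₁ + B + (s₁ + 1)⁻¹ = 0
  c2 : -2 * A * s₂ + B + (s₂ + 1)⁻¹ = 0

variable {A B s₁ s₂ : ℝ}

lemma Phi_mem_Om (hC : Crit A B s₁ s₂) {w : ℂ} (hw : w ∈ UH) :
    Phi A B w ∈ Om (phi A B s₁) (phi A B s₂) := by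
  refine ⟨?_, ?_⟩
  · rintro ⟨h1, h2⟩
    have h := re_lt_of_im_eq (B := B) hC.hA (x := s₂) (by linarith [hC.h2]) hw
      (by rw [h1, Phi_ofReal_im, if_neg (by linarith [hC.h2])])
    rw [Phi_ofReal_re] at h
    linarith
  · rintro ⟨h1, h2⟩
    have h := re_lt_of_im_eq (B := B) hC.hA (x := s₁) (by linarith [hC.h1]) hw
      (by rw [h1, Phi_ofReal_im, if_pos (by linarith [hC.h1])])
    rw [Phi_ofReal_re] at h
    linarith

lemma bdry_notMem (hC : Crit A B s₁ s₂) {x : ℝ} (hx : x ≠ -1) :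
    Phi A B (x : ℂ) ∉ Om (phi A B s₁) (phi A B s₂) := by
  rintro ⟨h1, h2⟩
  rcases lt_or_gt_of_ne hx with h | h
  · apply h2
    rw [Phi_ofReal_im, if_pos h, Phi_ofReal_re]
    refine ⟨rfl, ?_⟩
    have := phi_le_of_crit hC.c1 (x := x) (Or.inl ⟨h, hC.h1⟩)
    nlinarith [sq_nonneg (x - s₁), hC.hA, mul_nonneg hC.hA.le (sq_nonneg (x - s₁))]
  · apply h1
    rw [Phi_ofReal_im, if_neg (by linarith), Phi_ofReal_re]
    refine ⟨rfl, ?_⟩
    have := phi_le_of_crit hC.c2 (x := x) (Or.inr ⟨h, hC.h2⟩)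
    nlinarith [sq_nonneg (x - s₂), hC.hA, mul_nonneg hC.hA.le (sq_nonneg (x - s₂))]

lemma hasStrictDerivAt_Phi (A B : ℝ) {w : ℂ} (hw : w ∈ UH) :
    HasStrictDerivAt (Phi A B) (dPhi A B w) w := by
  have hd : DifferentiableOn ℂ (Phi A B) UH := fun z hz =>
    (hasDerivAt_Phi A B hz).differentiableAt.differentiableWithinAt
  have ha : AnalyticAt ℂ (Phi A B) w := hd.analyticAt (isOpen_UH.mem_nhds hw)
  have := ha.hasStrictDerivAt
  rwa [(hasDerivAt_Phi A B hw).deriv] at this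

lemma map_nhds_Phi (hA : 0 < A) {w : ℂ} (hw : w ∈ UH) :
    map (Phi A B) (𝓝 w) = 𝓝 (Phi A B w) :=
  (hasStrictDerivAt_Phi A B hw).map_nhds_eq (dPhi_ne_zero hA hw)

lemma isOpen_image_Phi (hA : 0 < A) : IsOpen (Phi A B '' UH) := by
  rw [isOpen_iff_mem_nhds]
  rintro _ ⟨w, hw, rfl⟩
  rw [← map_nhds_Phi hA hw]
  exact image_mem_map (isOpen_UH.mem_nhds hw)

lemma CH_cases {w : ℂ} (hw : w ∈ CH) : w ∈ UH ∨ ∃ x : ℝ, x ≠ -1 ∧ w = (x : ℂ) := by
  rcases hw.1.lt_or_eq with h | h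
  · exact Or.inl h
  · right
    refine ⟨w.re, ?_, ?_⟩
    · intro hre
      apply hw.2
      apply Complex.ext
      · simpa using hre
      · simpa using h.symm
    · apply Complex.ext
      · simp
      · simpa using h.symm

lemma image_Phi (hC : Crit A B s₁ s₂) :
    Phi A B '' UH = Om (phi A B s₁) (phi A B s₂) := by
  apply Subset.antisymm
  · rintro _ ⟨w, hw, rfl⟩
    exact Phi_mem_Om hC hw
  · apply (isPreconnected_Om _ _).subset_of_closure_inter_subset (isOpen_image_Phi hC.hA)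
    · have hI : (I : ℂ) ∈ UH := by simp [UH]
      exact ⟨Phi A B I, Phi_mem_Om hC hI, I, hI, rfl⟩
    · rintro ζ ⟨hζ, hO⟩
      obtain ⟨K, hK, hKC, hKP⟩ := exists_compact B hC.hA (‖ζ‖ + 1)
      have hKcl : IsClosed (Phi A B '' K) :=
        (hK.image_of_continuousOn ((continuousOn_Phi A B).mono hKC)).isClosed
      have hmem : ζ ∈ Phi A B '' K := by
        by_contra hcon
        have hopen : IsOpen ((Phi A B '' K)ᶜ ∩ Metric.ball ζ 1) :=
          hKcl.isOpen_compl.inter Metric.isOpen_ball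
        obtain ⟨y, ⟨hy1, hy2⟩, w, hw, rfl⟩ := mem_closure_iff.mp hζ _ hopen
          ⟨hcon, Metric.mem_ball_self one_pos⟩
        apply hy1
        refine ⟨w, hKP w (UH_subset_CH hw) ?_, rfl⟩
        have : ‖Phi A B w - ζ‖ < 1 := by simpa [dist_eq_norm] using hy2
        have h2 := norm_add_le (Phi A B w - ζ) ζ
        rw [sub_add_cancel] at h2
        linarith
      obtain ⟨k, hk, rfl⟩ := hmem
      rcases CH_cases (hKC hk) with h | ⟨x, hx, rfl⟩
      · exact ⟨k, h, rfl⟩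
      · exact absurd hO (bdry_notMem hC hx)

/-- the tips are attained only at the critical points -/
lemma tip_unique {s : ℝ} (hA : 0 < A) (hs1 : s ≠ -1) (hs : -2 * A * s + B + (s + 1)⁻¹ = 0)
    {w : ℂ} (hw : w ∈ CH) (h : Phi A B w = Phi A B (s : ℂ)) : w = (s : ℂ) := by
  rcases CH_cases hw with h1 | ⟨x, hx, rfl⟩
  · exfalso
    have := re_lt_of_im_eq (B := B) hA hs1 h1 (by rw [h])
    rw [h] at this
    exact lt_irrefl _ this
  · have him : (Phi A B (x : ℂ)).im = (Phi A B (s : ℂ)).im := by rw [h]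
    have hre : (Phi A B (x : ℂ)).re = (Phi A B (s : ℂ)).re := by rw [h]
    rw [Phi_ofReal_re, Phi_ofReal_re] at hre
    rw [Phi_ofReal_im, Phi_ofReal_im] at him
    by_contra hne
    have hne' : x ≠ s := fun e => hne (by rw [e])
    have hpi := Real.pi_pos
    have hside : (x < -1 ∧ s < -1) ∨ (-1 < x ∧ -1 < s) := by
      rcases lt_or_gt_of_ne hx with h1 | h1 <;> rcases lt_or_gt_of_ne hs1 with h2 | h2
      · exact Or.inl ⟨h1, h2⟩
      · rw [if_pos h1, if_neg (by linarith)] at him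
        linarith
      · rw [if_neg (by linarith), if_pos h2] at him
        linarith
      · exact Or.inr ⟨h1, h2⟩
    have := phi_lt_of_crit hA hs hside hne'
    linarith

/-- the inverse of `Phi` -/
noncomputable def Psi (A B : ℝ) : ℂ → ℂ := Function.invFunOn (Phi A B) UH

lemma Psi_mem (hC : Crit A B s₁ s₂) {ζ : ℂ} (hζ : ζ ∈ Om (phi A B s₁) (phi A B s₂)) :
    Psi A B ζ ∈ UH := by
  rw [← image_Phi hC] at hζ
  exact Function.invFunOn_mem hζ

lemma Phi_Psi (hC : Crit A B s₁ s₂) {ζ : ℂ} (hζ : ζ ∈ Om (phi A B s₁) (phi A B s₂)) :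
    Phi A B (Psi A B ζ) = ζ := by
  rw [← image_Phi hC] at hζ
  exact Function.invFunOn_eq hζ

lemma Psi_Phi (hA : 0 < A) {w : ℂ} (hw : w ∈ UH) : Psi A B (Phi A B w) = w := by
  have h : Phi A B w ∈ Phi A B '' UH := ⟨w, hw, rfl⟩
  exact Phi_injOn hA (Function.invFunOn_mem h) hw (Function.invFunOn_eq h)

lemma continuousAt_Psi (hC : Crit A B s₁ s₂) {ζ : ℂ}
    (hζ : ζ ∈ Om (phi A B s₁) (phi A B s₂)) : ContinuousAt (Psi A B) ζ := by
  have hw := Psi_mem hC hζ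
  have hP := Phi_Psi hC hζ
  set w := Psi A B ζ with hwdef
  intro U hU
  rw [← hwdef] at hU
  have h1 : U ∩ UH ∈ 𝓝 w := inter_mem hU (isOpen_UH.mem_nhds hw)
  have h2 : Phi A B '' (U ∩ UH) ∈ 𝓝 (Phi A B w) := by
    rw [← map_nhds_Phi hC.hA hw]
    exact image_mem_map h1
  rw [hP] at h2
  show Psi A B ⁻¹' U ∈ 𝓝 ζ
  filter_upwards [h2]
  rintro _ ⟨z, ⟨hz1, hz2⟩, rfl⟩
  show Psi A B (Phi A B z) ∈ U
  rwa [Psi_Phi hC.hA hz2]

lemma hasDerivAt_Psi (hC : Crit A B s₁ s₂) {ζ : ℂ}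
    (hζ : ζ ∈ Om (phi A B s₁) (phi A B s₂)) :
    HasDerivAt (Psi A B) (dPhi A B (Psi A B ζ))⁻¹ ζ := by
  apply HasDerivAt.of_local_left_inverse (continuousAt_Psi hC hζ)
    (hasDerivAt_Phi A B (Psi_mem hC hζ)) (dPhi_ne_zero hC.hA (Psi_mem hC hζ))
  filter_upwards [(isOpen_Om _ _).mem_nhds hζ] with y hy
  exact Phi_Psi hC hy

lemma tendsto_Psi_tip (hC : Crit A B s₁ s₂) {s : ℝ} (hs1 : s ≠ -1)
    (hs : -2 * A * s + B + (s + 1)⁻¹ = 0) :
    Tendsto (Psi A B) (𝓝[Om (phi A B s₁) (phi A B s₂)] (Phi A B (s : ℂ)))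
      (𝓝[UH] (s : ℂ)) := by
  rw [tendsto_nhdsWithin_iff]
  refine ⟨?_, ?_⟩
  · intro U hU
    obtain ⟨V, hVU, hVo, hsV⟩ := mem_nhds_iff.mp hU
    set ζ := Phi A B (s : ℂ) with hζ
    obtain ⟨K, hK, hKC, hKP⟩ := exists_compact B hC.hA (‖ζ‖ + 1)
    have hK' : IsCompact (K \ V) := hK.diff hVo
    have hcl : IsClosed (Phi A B '' (K \ V)) :=
      (hK'.image_of_continuousOn ((continuousOn_Phi A B).mono
        (Set.sdiff_subset.trans hKC))).isClosed
    have hnot : ζ ∉ Phi A B '' (K \ V) := by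
      rintro ⟨k, ⟨hk1, hk2⟩, hk3⟩
      have := tip_unique hC.hA hs1 hs (hKC hk1) hk3
      rw [this] at hk2
      exact hk2 hsV
    have hn : (Phi A B '' (K \ V))ᶜ ∩ Metric.ball ζ 1 ∈ 𝓝 ζ :=
      inter_mem (hcl.isOpen_compl.mem_nhds hnot) (Metric.ball_mem_nhds _ one_pos)
    have : Psi A B ⁻¹' U ∈ 𝓝[Om (phi A B s₁) (phi A B s₂)] ζ := by
      filter_upwards [mem_nhdsWithin_of_mem_nhds hn, self_mem_nhdsWithin] with y hy hyO
      apply hVU
      by_contra hcon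
      apply hy.1
      have hb : ‖y - ζ‖ < 1 := by simpa [dist_eq_norm] using hy.2
      have h2 := norm_add_le (y - ζ) ζ
      rw [sub_add_cancel] at h2
      refine ⟨Psi A B y, ⟨hKP _ (UH_subset_CH (Psi_mem hC hyO)) ?_, hcon⟩, Phi_Psi hC hyO⟩
      rw [Phi_Psi hC hyO]
      linarith
    exact this
  · filter_upwards [self_mem_nhdsWithin] with y hy
    exact Psi_mem hC hy

end Pool.Agent.W769.HU
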