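import Pool.Agent.W769.HU.Pot

/-!
Numerical estimates.
-/

namespace Pool.Agent.W769.HU

lemma arctan_le_poly {x : ℝ} (hx : 0 ≤ x) :
    Real.arctan x ≤ x - x ^ 3 / 3 + x ^ 5 / 5 := by
  have hd : ∀ y : ℝ, HasDerivAt (fun y : ℝ => y - y ^ 3 / 3 + y ^ 5 / 5 - Real.arctan y)
      (1 - y ^ 2 + y ^ 4 - 1 / (1 + y ^ 2)) y := by
    intro y
    have h1 := ((hasDerivAt_id y).sub ((hasDerivAt_pow 3 y).div_const 3)).add
      ((hasDerivAt_pow 5 y).div_const 5)
    have h2 := h1.sub (Real.hasDerivAt_arctan y)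
    convert! h2 using 1
    norm_num
  have hm : Monotone (fun y : ℝ => y - y ^ 3 / 3 + y ^ 5 / 5 - Real.arctan y) := by
    apply monotone_of_deriv_nonneg (fun y => (hd y).differentiableAt)
    intro y
    rw [(hd y).deriv]
    have e : 1 - y ^ 2 + y ^ 4 - 1 / (1 + y ^ 2) = y ^ 6 / (1 + y ^ 2) := by
      have : (1 : ℝ) + y ^ 2 ≠ 0 := by positivity
      field_simp
      ring
    rw [e]
    positivity
  have := hm hx
  simp at this
  linarith

lemma poly_le_arctan {x : ℝ} (hx : 0 ≤ x) :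
    x - x ^ 3 / 3 + x ^ 5 / 5 - x ^ 7 / 7 ≤ Real.arctan x := by
  have hd : ∀ y : ℝ, HasDerivAt
      (fun y : ℝ => Real.arctan y - (y - y ^ 3 / 3 + y ^ 5 / 5 - y ^ 7 / 7))
      (1 / (1 + y ^ 2) - (1 - y ^ 2 + y ^ 4 - y ^ 6)) y := by
    intro y
    have h1 := (((hasDerivAt_id y).sub ((hasDerivAt_pow 3 y).div_const 3)).add
      ((hasDerivAt_pow 5 y).div_const 5)).sub ((hasDerivAt_pow 7 y).div_const 7)
    have h2 := (Real.hasDerivAt_arctan y).sub h1
    convert! h2 using 1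
    norm_num
  have hm : Monotone (fun y : ℝ => Real.arctan y - (y - y ^ 3 / 3 + y ^ 5 / 5 - y ^ 7 / 7)) := by
    apply monotone_of_deriv_nonneg (fun y => (hd y).differentiableAt)
    intro y
    rw [(hd y).deriv]
    have e : 1 / (1 + y ^ 2) - (1 - y ^ 2 + y ^ 4 - y ^ 6) = y ^ 8 / (1 + y ^ 2) := by
      have : (1 : ℝ) + y ^ 2 ≠ 0 := by positivity
      field_simp
      ring
    rw [e]
    positivity
  have := hm hx
  simp at this
  linarith

lemma th_t1 : th (-(1830 / 1831)) = Real.pi / 4 + Real.arctan (1 / 3661) := by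
  unfold th
  have h := Real.arctan_add (x := 1) (y := -(1 / 3661)) (by norm_num)
  have e : ((1 : ℝ) + -(1 / 3661)) / (1 - 1 * -(1 / 3661)) = 1830 / 1831 := by norm_num
  rw [e, Real.arctan_neg, Real.arctan_one] at h
  rw [Real.arctan_neg, ← h]
  ring

lemma th_u1 : th (-(31 / 30)) = Real.pi / 4 - Real.arctan (1 / 61) := by
  unfold th
  have h := Real.arctan_add (x := 1) (y := 1 / 61) (by norm_num)
  have e : ((1 : ℝ) + 1 / 61) / (1 - 1 * (1 / 61)) = 31 / 30 := by norm_num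
  rw [e, Real.arctan_one] at h
  rw [Real.arctan_neg, ← h]
  ring

lemma th_t2 : th (1501 / 35) = Real.pi - Real.arctan (35 / 1501) := by
  unfold th
  have h := Real.arctan_inv_of_pos (x := 35 / 1501) (by norm_num)
  have e : ((35 : ℝ) / 1501)⁻¹ = 1501 / 35 := by norm_num
  rw [e] at h
  rw [h]
  ring

lemma th_u2 : th 25 = Real.pi - Real.arctan (1 / 25) := by
  unfold th
  have h := Real.arctan_inv_of_pos (x := 1 / 25) (by norm_num)
  have e : ((1 : ℝ) / 25)⁻¹ = 25 := by norm_num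
  rw [e] at h
  rw [h]
  ring

/-- the two leading coefficients -/
noncomputable def AF : ℝ := 3688776 / 4220065
noncomputable def AG : ℝ := 12 / 25

/-- tip contribution of a kernel with a real pole -/
noncomputable def val (A B t e e' : ℝ) : ℝ :=
  -(dphi A B t * (e * Real.pi - th t) + 2 * A - (t + 1)⁻¹ * (e' * Real.pi - Real.pi / 4))

noncomputable def D11 : ℝ := val AF 23 (-(1830 / 1831)) 1 1
  - 3601 / (-(1830 / 1831) + 60) ^ 2 * val AG 23 (-(31 / 30)) 1 1
  - (-(1830 / 1831) + 60)⁻¹ * (Real.pi - (23 + Real.pi / 4))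

noncomputable def D21 : ℝ := val AF 23 (-(1830 / 1831)) 0 0
  - 3601 / (-(1830 / 1831) + 60) ^ 2 * val AG 23 (-(31 / 30)) 0 0
  - (-(1830 / 1831) + 60)⁻¹ * (0 - (23 + Real.pi / 4))

noncomputable def D12 : ℝ := val AF 23 (1501 / 35) 1 1
  - 3601 / (1501 / 35 + 60) ^ 2 * val AG 23 25 1 1
  - (1501 / 35 + 60)⁻¹ * (Real.pi - (23 + Real.pi / 4))

noncomputable def D22 : ℝ := val AF 23 (1501 / 35) 1 0
  - 3601 / (1501 / 35 + 60) ^ 2 * val AG 23 25 1 0
  - (1501 / 35 + 60)⁻¹ * (0 - (23 + Real.pi / 4))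

lemma D11_lb : (1679 / 10000 : ℝ) < D11 := by
  have h1 := Real.pi_gt_d20
  have h2 := Real.pi_lt_d20
  have h3 := arctan_le_poly (x := 1 / 3661) (by norm_num)
  have h4 := poly_le_arctan (x := 1 / 3661) (by norm_num)
  have h5 := arctan_le_poly (x := 1 / 61) (by norm_num)
  have h6 := poly_le_arctan (x := 1 / 61) (by norm_num)
  unfold D11 val dphi
  rw [th_t1, th_u1]
  unfold AF AG
  norm_num at h1 h2 h3 h4 h5 h6 ⊢
  linarith

lemma D21_bd : -(303 / 100000 : ℝ) < D21 ∧ D21 < 0 := by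
  have h1 := Real.pi_gt_d20
  have h2 := Real.pi_lt_d20
  have h3 := arctan_le_poly (x := 1 / 3661) (by norm_num)
  have h4 := poly_le_arctan (x := 1 / 3661) (by norm_num)
  have h5 := arctan_le_poly (x := 1 / 61) (by norm_num)
  have h6 := poly_le_arctan (x := 1 / 61) (by norm_num)
  unfold D21 val dphi
  rw [th_t1, th_u1]
  unfold AF AG
  norm_num at h1 h2 h3 h4 h5 h6 ⊢
  constructor <;> linarith

lemma D12_bd : -(522 / 10000000 : ℝ) < D12 ∧ D12 < 0 := by
  have h1 := Real.pi_gt_d20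
  have h2 := Real.pi_lt_d20
  have h3 := arctan_le_poly (x := 35 / 1501) (by norm_num)
  have h4 := poly_le_arctan (x := 35 / 1501) (by norm_num)
  have h5 := arctan_le_poly (x := 1 / 25) (by norm_num)
  have h6 := poly_le_arctan (x := 1 / 25) (by norm_num)
  unfold D12 val dphi
  rw [th_t2, th_u2]
  unfold AF AG
  norm_num at h1 h2 h3 h4 h5 h6 ⊢
  constructor <;> linarith

lemma D22_lb : (140 / 100000000 : ℝ) < D22 := by
  have h1 := Real.pi_gt_d20
  have h2 := Real.pi_lt_d20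
  have h3 := arctan_le_poly (x := 35 / 1501) (by norm_num)
  have h4 := poly_le_arctan (x := 35 / 1501) (by norm_num)
  have h5 := arctan_le_poly (x := 1 / 25) (by norm_num)
  have h6 := poly_le_arctan (x := 1 / 25) (by norm_num)
  unfold D22 val dphi
  rw [th_t2, th_u2]
  unfold AF AG
  norm_num at h1 h2 h3 h4 h5 h6 ⊢
  linarith

lemma det_pos : 0 < D11 * D22 - D21 * D12 := by
  have h1 := D11_lb
  have h2 := D21_bd
  have h3 := D12_bd
  have h4 := D22_lb
  have h5 : (1679 / 10000 : ℝ) * (140 / 100000000) ≤ D11 * D22 := by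
    apply mul_le_mul h1.le h4.le (by norm_num) (by linarith)
  have h6 : D21 * D12 ≤ (303 / 100000) * (522 / 10000000) := by
    have := mul_le_mul (a := -D21) (b := 303 / 100000) (c := -D12) (d := 522 / 10000000)
      (by linarith [h2.1]) (by linarith [h3.1]) (by linarith [h3.2]) (by norm_num)
    linarith
  norm_num at h5 h6
  linarith

end Pool.Agent.W769.HU
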