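import Pool.Agent.W769.HU.Coef

/-!
The two half plane maps with the same dilatation and the same image.
-/

open Complex Set Filter Topology

namespace Pool.Agent.W769.HU

/-- the Herglotz function on the `F` side -/
noncomputable def WF (a₁ a₂ : ℝ) (τ₁ τ₂ w : ℂ) : ℂ :=
  1 + (a₁ : ℂ) * (I * (w - τ₁)⁻¹) + (a₂ : ℂ) * (I * (w - τ₂)⁻¹)

noncomputable def PF (a₁ a₂ : ℝ) (τ₁ τ₂ w : ℂ) : ℂ :=
  Phi AF 23 w + (a₁ : ℂ) * (I * JJ AF 23 τ₁ w) + (a₂ : ℂ) * (I * JJ AF 23 τ₂ w)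

noncomputable def KG (τ w : ℂ) : ℂ := 3601 / (τ + 60) ^ 2 * (w - RR τ)⁻¹ - (τ + 60)⁻¹

noncomputable def LG (τ w : ℂ) : ℂ :=
  3601 / (τ + 60) ^ 2 * JJ AG 23 (RR τ) w - (τ + 60)⁻¹ * Phi AG 23 w

noncomputable def WG (a₁ a₂ : ℝ) (τ₁ τ₂ w : ℂ) : ℂ :=
  1 + (a₁ : ℂ) * (I * KG τ₁ w) + (a₂ : ℂ) * (I * KG τ₂ w)

noncomputable def PG (a₁ a₂ : ℝ) (τ₁ τ₂ w : ℂ) : ℂ :=
  Phi AG 23 w + (a₁ : ℂ) * (I * LG τ₁ w) + (a₂ : ℂ) * (I * LG τ₂ w)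

lemma re_I_mul' (a : ℝ) (z : ℂ) : ((a : ℂ) * (I * z)).re = -(a * z.im) := by
  rw [Complex.re_ofReal_mul]
  simp

lemma WF_re {a₁ a₂ : ℝ} (h₁ : 0 ≤ a₁) (h₂ : 0 ≤ a₂) {τ₁ τ₂ w : ℂ} (hτ₁ : τ₁ ∈ LH)
    (hτ₂ : τ₂ ∈ LH) (hw : w ∈ UH) : 1 ≤ (WF a₁ a₂ τ₁ τ₂ w).re := by
  have hw' : 0 < w.im := hw
  have k : ∀ τ ∈ LH, ((w - τ)⁻¹).im < 0 := by
    intro τ hτ
    have hτ' : τ.im ≤ 0 := hτ
    apply im_inv_neg
    rw [Complex.sub_im]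
    linarith
  unfold WF
  rw [Complex.add_re, Complex.add_re, re_I_mul', re_I_mul', Complex.one_re]
  have := mul_nonneg h₁ (neg_nonneg.mpr (k τ₁ hτ₁).le)
  have := mul_nonneg h₂ (neg_nonneg.mpr (k τ₂ hτ₂).le)
  linarith

lemma KG_RR {τ w : ℂ} (hτ : τ + 60 ≠ 0) (hw : w + 60 ≠ 0) (hτw : w - τ ≠ 0) :
    KG τ (RR w) = (w - τ)⁻¹ := by
  unfold KG
  have e : RR w - RR τ = 3601 * (w - τ) / ((w + 60) * (τ + 60)) := by
    unfold RR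
    field_simp
    ring
  rw [e]
  field_simp
  ring

lemma WG_RR {a₁ a₂ : ℝ} {τ₁ τ₂ w : ℂ} (hτ₁ : τ₁.im < 0) (hτ₂ : τ₂.im < 0) (hw : w ∈ UH) :
    WG a₁ a₂ τ₁ τ₂ (RR w) = WF a₁ a₂ τ₁ τ₂ w := by
  have hw' : 0 < w.im := hw
  have k1 : ∀ τ : ℂ, τ.im < 0 → τ + 60 ≠ 0 := by
    intro τ hτ h
    have : (τ + 60).im = 0 := by rw [h]; simp
    simp at this
    linarith
  have k2 : ∀ τ : ℂ, τ.im < 0 → w - τ ≠ 0 := by
    intro τ hτ h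
    have : (w - τ).im = 0 := by rw [h]; simp
    rw [Complex.sub_im] at this
    linarith
  unfold WG WF
  rw [KG_RR (k1 τ₁ hτ₁) (add60_ne hw) (k2 τ₁ hτ₁), KG_RR (k1 τ₂ hτ₂) (add60_ne hw) (k2 τ₂ hτ₂)]

/-- the inverse Moebius map -/
noncomputable def RI (w : ℂ) : ℂ := (60 * w + 1) / (60 - w)

lemma sixty_sub_ne {w : ℂ} (hw : w ∈ UH) : 60 - w ≠ 0 := by
  intro h
  have hw' : 0 < w.im := hw
  have : (60 - w).im = 0 := by rw [h]; simp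
  simp at this
  linarith

lemma RI_mapsTo : MapsTo RI UH UH := by
  intro w hw
  have hw' : 0 < w.im := hw
  show 0 < (RI w).im
  have e : (RI w).im = 3601 * w.im / Complex.normSq (60 - w) := by
    unfold RI
    rw [Complex.div_im]
    simp only [Complex.sub_im, Complex.mul_im, Complex.sub_re, Complex.mul_re, Complex.add_re,
      Complex.add_im]
    norm_num
    have h : Complex.normSq (60 - w) ≠ 0 := (Complex.normSq_pos.mpr (sixty_sub_ne hw)).ne'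
    field_simp
    ring
  rw [e]
  exact div_pos (by linarith) (Complex.normSq_pos.mpr (sixty_sub_ne hw))

lemma RR_RI {w : ℂ} (hw : w ∈ UH) : RR (RI w) = w := by
  have h1 := sixty_sub_ne hw
  have h2 := add60_ne (RI_mapsTo hw)
  unfold RR
  rw [div_eq_iff h2]
  unfold RI
  field_simp
  ring

lemma RR_injOn : InjOn RR UH := by
  intro w hw w' hw' h
  have h1 := add60_ne hw
  have h2 := add60_ne hw'
  unfold RR at h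
  rw [div_eq_div_iff h1 h2] at h
  have : (3601 : ℂ) * (w - w') = 0 := by linear_combination h
  have h3 : w - w' = 0 := by
    rcases mul_eq_zero.mp this with h | h
    · norm_num at h
    · exact h
  exact sub_eq_zero.mp h3

lemma RR_bijOn : BijOn RR UH UH :=
  ⟨RR_mapsTo_UH, RR_injOn, fun w hw => ⟨RI w, RI_mapsTo hw, RR_RI hw⟩⟩

lemma WG_re {a₁ a₂ : ℝ} (h₁ : 0 ≤ a₁) (h₂ : 0 ≤ a₂) {τ₁ τ₂ w : ℂ} (hτ₁ : τ₁.im < 0)
    (hτ₂ : τ₂.im < 0) (hw : w ∈ UH) : 1 ≤ (WG a₁ a₂ τ₁ τ₂ w).re := by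
  rw [← RR_RI hw, WG_RR hτ₁ hτ₂ (RI_mapsTo hw)]
  exact WF_re h₁ h₂ hτ₁.le hτ₂.le (RI_mapsTo hw)

lemma ne_neg_one_of_im {τ : ℂ} (hτ : τ.im < 0) : τ ≠ -1 := by
  rintro rfl
  simp at hτ

lemma RR_im_neg {τ : ℂ} (hτ : τ.im < 0) : (RR τ).im < 0 := by
  rw [RR_im]
  apply div_neg_of_neg_of_pos (by linarith)
  apply Complex.normSq_pos.mpr
  intro h
  have : (τ + 60).im = 0 := by rw [h]; simp
  simp at this
  linarith

lemma hasDerivAt_PF (a₁ a₂ : ℝ) {τ₁ τ₂ w : ℂ} (hτ₁ : τ₁.im < 0) (hτ₂ : τ₂.im < 0)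
    (hw : w ∈ UH) :
    HasDerivAt (PF a₁ a₂ τ₁ τ₂) (WF a₁ a₂ τ₁ τ₂ w * dPhi AF 23 w) w := by
  have h0 := hasDerivAt_Phi AF 23 hw
  have h1 := hasDerivAt_JJ AF 23 (τ := τ₁) hτ₁.le (ne_neg_one_of_im hτ₁) hw
  have h2 := hasDerivAt_JJ AF 23 (τ := τ₂) hτ₂.le (ne_neg_one_of_im hτ₂) hw
  have h := (h0.add ((h1.const_mul I).const_mul (a₁ : ℂ))).add
    ((h2.const_mul I).const_mul (a₂ : ℂ))
  convert! h using 1
  unfold WF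
  ring

lemma hasDerivAt_LG {τ w : ℂ} (hτ : τ.im < 0) (hw : w ∈ UH) :
    HasDerivAt (LG τ) (KG τ w * dPhi AG 23 w) w := by
  have h0 := hasDerivAt_Phi AG 23 hw
  have h1 := hasDerivAt_JJ AG 23 (τ := RR τ) (RR_im_neg hτ).le
    (ne_neg_one_of_im (RR_im_neg hτ)) hw
  have h := (h1.const_mul (3601 / (τ + 60) ^ 2)).sub (h0.const_mul ((τ + 60)⁻¹))
  convert! h using 1
  unfold KG
  ring

lemma hasDerivAt_PG (a₁ a₂ : ℝ) {τ₁ τ₂ w : ℂ} (hτ₁ : τ₁.im < 0) (hτ₂ : τ₂.im < 0)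
    (hw : w ∈ UH) :
    HasDerivAt (PG a₁ a₂ τ₁ τ₂) (WG a₁ a₂ τ₁ τ₂ w * dPhi AG 23 w) w := by
  have h0 := hasDerivAt_Phi AG 23 hw
  have h1 := hasDerivAt_LG hτ₁ hw
  have h2 := hasDerivAt_LG hτ₂ hw
  have h := (h0.add ((h1.const_mul I).const_mul (a₁ : ℂ))).add
    ((h2.const_mul I).const_mul (a₂ : ℂ))
  convert! h using 1
  unfold WG
  ring

lemma ofReal_ne_of_im {τ : ℂ} (hτ : τ.im < 0) (s : ℝ) : (s : ℂ) ≠ τ := by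
  rintro rfl
  simp at hτ

lemma ofReal_mem_CH {s : ℝ} (hs : s ≠ -1) : (s : ℂ) ∈ CH := by
  refine ⟨by simp, ?_⟩
  intro h
  apply hs
  exact_mod_cast h

lemma cont_Phi_tip (A B : ℝ) {s : ℝ} (hs : s ≠ -1) :
    ContinuousWithinAt (Phi A B) UH (s : ℂ) :=
  ((continuousOn_Phi A B) _ (ofReal_mem_CH hs)).mono UH_subset_CH

lemma tendsto_PF_tip (a₁ a₂ : ℝ) {τ₁ τ₂ : ℂ} (hτ₁ : τ₁.im < 0) (hτ₂ : τ₂.im < 0) {s : ℝ}
    (hs : s ≠ -1) :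
    Tendsto (PF a₁ a₂ τ₁ τ₂) (𝓝[UH] (s : ℂ)) (𝓝 (PF a₁ a₂ τ₁ τ₂ (s : ℂ))) := by
  have c0 := cont_Phi_tip AF 23 hs
  have c1 := continuousWithinAt_JJ_w AF 23 (τ := τ₁) hτ₁.le hs (ofReal_ne_of_im hτ₁ s)
  have c2 := continuousWithinAt_JJ_w AF 23 (τ := τ₂) hτ₂.le hs (ofReal_ne_of_im hτ₂ s)
  exact (c0.add (continuousWithinAt_const.mul (continuousWithinAt_const.mul c1))).add
    (continuousWithinAt_const.mul (continuousWithinAt_const.mul c2))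

lemma tendsto_PG_tip (a₁ a₂ : ℝ) {τ₁ τ₂ : ℂ} (hτ₁ : τ₁.im < 0) (hτ₂ : τ₂.im < 0) {s : ℝ}
    (hs : s ≠ -1) :
    Tendsto (PG a₁ a₂ τ₁ τ₂) (𝓝[UH] (s : ℂ)) (𝓝 (PG a₁ a₂ τ₁ τ₂ (s : ℂ))) := by
  have c0 := cont_Phi_tip AG 23 hs
  have c1 := continuousWithinAt_JJ_w AG 23 (τ := RR τ₁) (RR_im_neg hτ₁).le hs
    (ofReal_ne_of_im (RR_im_neg hτ₁) s)
  have c2 := continuousWithinAt_JJ_w AG 23 (τ := RR τ₂) (RR_im_neg hτ₂).le hs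
    (ofReal_ne_of_im (RR_im_neg hτ₂) s)
  have d1 : ContinuousWithinAt (LG τ₁) UH (s : ℂ) :=
    (continuousWithinAt_const.mul c1).sub (continuousWithinAt_const.mul c0)
  have d2 : ContinuousWithinAt (LG τ₂) UH (s : ℂ) :=
    (continuousWithinAt_const.mul c2).sub (continuousWithinAt_const.mul c0)
  exact (c0.add (continuousWithinAt_const.mul (continuousWithinAt_const.mul d1))).add
    (continuousWithinAt_const.mul (continuousWithinAt_const.mul d2))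

/-- the difference of the tips is the linear expression killed by the coefficients -/
lemma tip_diff (a₁ a₂ : ℝ) (τ₁ τ₂ : ℂ) (s s' : ℝ) :
    ((PF a₁ a₂ τ₁ τ₂ (s : ℂ)).re - (PF a₁ a₂ τ₁ τ₂ I).re)
      - ((PG a₁ a₂ τ₁ τ₂ (s' : ℂ)).re - (PG a₁ a₂ τ₁ τ₂ I).re)
      = dc s s' + a₁ * DD s s' τ₁ + a₂ * DD s s' τ₂ := by
  unfold PF PG dc DD LG
  simp only [Complex.add_re, re_I_mul', Complex.sub_re, Complex.sub_im]
  have e : ∀ (c x y : ℂ), (c * (x - y)).im = (c * x).im - (c * y).im := by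
    intro c x y
    rw [mul_sub, Complex.sub_im]
  rw [e, e, e, e]
  ring

end Pool.Agent.W769.HU
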