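import Mathlib

/-!
The conformal maps `Φ(w) = -A w^2 + B w + log(w+1)` of the upper half plane.
-/

open Complex Set Filter Topology

namespace Pool.Agent.W769.HU

/-- open upper half plane -/
def UH : Set ℂ := {w | 0 < w.im}

/-- closed upper half plane without the point -1 -/
def CH : Set ℂ := {w | 0 ≤ w.im ∧ w ≠ -1}

noncomputable def Phi (A B : ℝ) (w : ℂ) : ℂ :=
  -(A : ℂ) * w ^ 2 + (B : ℂ) * w + Complex.log (w + 1)

noncomputable def dPhi (A B : ℝ) (w : ℂ) : ℂ :=
  -2 * (A : ℂ) * w + (B : ℂ) + (w + 1)⁻¹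

lemma isOpen_UH : IsOpen UH := isOpen_lt continuous_const Complex.continuous_im

lemma UH_subset_CH : UH ⊆ CH := by
  intro w hw
  refine ⟨le_of_lt hw, ?_⟩
  rintro rfl
  simp [UH] at hw

lemma slit_of_im_pos {w : ℂ} (hw : 0 < w.im) : w ∈ slitPlane :=
  Complex.mem_slitPlane_iff.mpr (Or.inr hw.ne')

lemma add_one_slit {w : ℂ} (hw : w ∈ UH) : w + 1 ∈ slitPlane := by
  apply slit_of_im_pos
  simpa [UH] using hw

lemma hasDerivAt_Phi (A B : ℝ) {w : ℂ} (hw : w ∈ UH) :
    HasDerivAt (Phi A B) (dPhi A B w) w := by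
  have h1 : HasDerivAt (fun w : ℂ => w ^ 2) (2 * w) w := by
    simpa using hasDerivAt_pow 2 w
  have h2 : HasDerivAt (fun w : ℂ => Complex.log (w + 1)) ((w + 1)⁻¹) w := by
    have := (((hasDerivAt_id w).add_const 1)).clog (add_one_slit hw)
    simpa using this
  have h3 := ((h1.const_mul (-(A : ℂ))).add ((hasDerivAt_id w).const_mul (B : ℂ))).add h2
  convert! h3 using 1
  unfold dPhi
  ring

lemma im_inv_neg {w : ℂ} (hw : 0 < w.im) : (w⁻¹).im < 0 := by
  rw [Complex.inv_im]
  have hne : w ≠ 0 := by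
    rintro rfl
    simp at hw
  have h : 0 < Complex.normSq w := Complex.normSq_pos.mpr hne
  have := div_pos hw h
  have e : -w.im / Complex.normSq w = -(w.im / Complex.normSq w) := by ring
  rw [e]
  linarith

lemma im_dPhi_neg {A B : ℝ} (hA : 0 < A) {w : ℂ} (hw : w ∈ UH) : (dPhi A B w).im < 0 := by
  have h1 : ((w + 1)⁻¹).im < 0 := im_inv_neg (by simpa [UH] using hw)
  have hw' : 0 < w.im := hw
  unfold dPhi
  have : (-2 * (A : ℂ) * w + (B : ℂ) + (w + 1)⁻¹).im = -2 * A * w.im + ((w + 1)⁻¹).im := by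
    simp
  rw [this]
  have : 0 < A * w.im := mul_pos hA hw'
  nlinarith

lemma dPhi_ne_zero {A B : ℝ} (hA : 0 < A) {w : ℂ} (hw : w ∈ UH) : dPhi A B w ≠ 0 := by
  intro h
  have := im_dPhi_neg (B := B) hA hw
  rw [h] at this
  simp at this

/-- continuity of log on the closed upper half plane minus the origin -/
lemma continuousOn_log_upper : ContinuousOn Complex.log {z : ℂ | 0 ≤ z.im ∧ z ≠ 0} := by
  intro z hz
  obtain ⟨h0, h1⟩ := hz
  by_cases hs : z ∈ slitPlane
  · exact (continuousAt_clog hs).continuousWithinAt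
  · have him : z.im = 0 := by
      by_contra h
      exact hs (Complex.mem_slitPlane_iff.mpr (Or.inr h))
    have hre : z.re < 0 := by
      rcases lt_trichotomy z.re 0 with h | h | h
      · exact h
      · exact absurd (Complex.ext h him) h1
      · exact absurd (Complex.mem_slitPlane_iff.mpr (Or.inl h)) hs
    exact (continuousWithinAt_log_of_re_neg_of_im_zero hre him).mono (fun w hw => hw.1)

lemma continuousOn_Phi (A B : ℝ) : ContinuousOn (Phi A B) CH := by
  have h1 : ContinuousOn (fun w : ℂ => Complex.log (w + 1)) CH := by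
    refine continuousOn_log_upper.comp (by fun_prop) ?_
    intro w hw
    refine ⟨by simpa using hw.1, ?_⟩
    intro h
    exact hw.2 (eq_neg_of_add_eq_zero_left h)
  unfold Phi
  exact ContinuousOn.add (by fun_prop) h1

/-- The quotient lemma. -/
lemma quot_im_neg {F F' : ℂ → ℂ} (hc : ContinuousOn F CH)
    (hd : ∀ w ∈ UH, HasDerivAt F (F' w) w) (hn : ∀ w ∈ UH, (F' w).im < 0)
    {a w : ℂ} (ha : a ∈ CH) (hw : w ∈ UH) (hne : w ≠ a) :
    ((F w - F a) / (w - a)).im < 0 := by
  have hne' : w - a ≠ 0 := sub_ne_zero.mpr hne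
  set γ : ℝ → ℂ := fun t => a + (t : ℂ) * (w - a) with hγ
  have him : ∀ t : ℝ, (γ t).im = (1 - t) * a.im + t * w.im := by
    intro t
    simp [hγ]
    ring
  have hwim : 0 < w.im := hw
  have haim : 0 ≤ a.im := ha.1
  have hU : ∀ t : ℝ, 0 < t → t ≤ 1 → γ t ∈ UH := by
    intro t h0 h1
    show 0 < (γ t).im
    rw [him]
    have : 0 ≤ (1 - t) * a.im := mul_nonneg (by linarith) haim
    have : 0 < t * w.im := mul_pos h0 hwim
    linarith
  have hC : ∀ t ∈ Icc (0 : ℝ) 1, γ t ∈ CH := by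
    intro t ht
    rcases ht.1.eq_or_lt with h | h
    · rw [← h]
      simpa [hγ] using ha
    · exact UH_subset_CH (hU t h ht.2)
  have hγc : Continuous γ := by
    simp only [hγ]
    fun_prop
  have hγd : ∀ t : ℝ, HasDerivAt γ (w - a) t := by
    intro t
    have h1 : HasDerivAt (fun t : ℝ => (t : ℂ)) 1 t := Complex.ofRealCLM.hasDerivAt
    have := (h1.mul_const (w - a)).const_add a
    simpa [hγ] using this
  set g : ℝ → ℝ := fun t => (F (γ t) / (w - a)).im with hg
  have hgc : ContinuousOn g (Icc 0 1) := by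
    have : ContinuousOn (fun t => F (γ t) / (w - a)) (Icc (0 : ℝ) 1) :=
      (hc.comp hγc.continuousOn hC).div_const _
    exact Complex.continuous_im.comp_continuousOn this
  have hgd : ∀ t : ℝ, 0 < t → t < 1 → HasDerivAt g ((F' (γ t)).im) t := by
    intro t h0 h1
    have h2 : HasDerivAt (fun t => F (γ t)) (F' (γ t) * (w - a)) t :=
      (hd _ (hU t h0 h1.le)).comp t (hγd t)
    have h3 : HasDerivAt (fun t => F (γ t) / (w - a)) (F' (γ t)) t := by
      have := h2.div_const (w - a)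
      rwa [mul_div_cancel_right₀ _ hne'] at this
    have h4 := (Complex.imCLM.hasFDerivAt (x := F (γ t) / (w - a))).comp_hasDerivAt t h3
    simpa [hg, Function.comp_def] using h4
  have hanti : StrictAntiOn g (Icc 0 1) := by
    apply strictAntiOn_of_deriv_neg (convex_Icc 0 1) hgc
    intro t ht
    rw [interior_Icc] at ht
    rw [(hgd t ht.1 ht.2).deriv]
    exact hn _ (hU t ht.1 ht.2.le)
  have h01 := hanti (left_mem_Icc.mpr zero_le_one) (right_mem_Icc.mpr zero_le_one) zero_lt_one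
  have e0 : γ 0 = a := by simp [hγ]
  have e1 : γ 1 = w := by simp [hγ]
  simp only [hg, e0, e1] at h01
  rw [sub_div, Complex.sub_im]
  linarith

lemma Phi_quot {A B : ℝ} (hA : 0 < A) {a w : ℂ} (ha : a ∈ CH) (hw : w ∈ UH) (hne : w ≠ a) :
    ((Phi A B w - Phi A B a) / (w - a)).im < 0 :=
  quot_im_neg (continuousOn_Phi A B) (fun _ h => hasDerivAt_Phi A B h)
    (fun _ h => im_dPhi_neg hA h) ha hw hne

lemma Phi_injOn {A B : ℝ} (hA : 0 < A) : InjOn (Phi A B) UH := by
  intro w hw a ha h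
  by_contra hne
  have := Phi_quot (B := B) hA (UH_subset_CH ha) hw hne
  rw [h, sub_self, zero_div] at this
  simp at this

/-- the real boundary function -/
noncomputable def phi (A B x : ℝ) : ℝ := -A * x ^ 2 + B * x + Real.log |x + 1|

lemma Phi_ofReal (A B x : ℝ) :
    Phi A B (x : ℂ) = (phi A B x : ℂ) + (if x < -1 then (Real.pi : ℂ) else 0) * I := by
  unfold Phi phi
  have h : Complex.log ((x : ℂ) + 1) = (Real.log |x + 1| : ℂ) +
      (if x < -1 then (Real.pi : ℂ) else 0) * I := by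
    have e : ((x : ℂ) + 1) = ((x + 1 : ℝ) : ℂ) := by push_cast; ring
    rw [e, Complex.log]
    congr 1
    · rw [Complex.norm_real, Real.norm_eq_abs]
    · split_ifs with hx
      · rw [Complex.arg_ofReal_of_neg (by linarith)]
      · rw [Complex.arg_ofReal_of_nonneg (by linarith)]
        simp
  rw [h]
  push_cast
  ring

lemma Phi_ofReal_re (A B x : ℝ) : (Phi A B (x : ℂ)).re = phi A B x := by
  rw [Phi_ofReal]
  split_ifs <;> simp

lemma Phi_ofReal_im (A B x : ℝ) : (Phi A B (x : ℂ)).im = if x < -1 then Real.pi else 0 := by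
  rw [Phi_ofReal]
  split_ifs <;> simp

/-- at equal height, interior points have larger real part than boundary points -/
lemma re_lt_of_im_eq {A B : ℝ} (hA : 0 < A) {x : ℝ} (hx : x ≠ -1) {w : ℂ} (hw : w ∈ UH)
    (h : (Phi A B w).im = (Phi A B (x : ℂ)).im) :
    (Phi A B (x : ℂ)).re < (Phi A B w).re := by
  have hxC : (x : ℂ) ∈ CH := by
    refine ⟨by simp, ?_⟩
    intro h
    apply hx
    exact_mod_cast h
  have hne : w ≠ (x : ℂ) := by
    rintro rfl
    simp [UH] at hw
  have hq := Phi_quot (B := B) hA hxC hw hne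
  have hwim : 0 < w.im := hw
  set r : ℝ := (Phi A B w).re - (Phi A B (x : ℂ)).re with hr
  have e : Phi A B w - Phi A B (x : ℂ) = (r : ℂ) := by
    apply Complex.ext
    · simp [hr]
    · simp [h]
  rw [e, div_eq_mul_inv, Complex.im_ofReal_mul] at hq
  have h1 : ((w - (x : ℂ))⁻¹).im < 0 := im_inv_neg (by simpa using hwim)
  have hr0 : 0 < r := by
    by_contra hcon
    push Not at hcon
    have := mul_nonneg_of_nonpos_of_nonpos hcon h1.le
    linarith
  linarith

/-- strict maximum at the critical point -/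
lemma phi_le_of_crit {A B s x : ℝ} (hs : -2 * A * s + B + (s + 1)⁻¹ = 0)
    (hside : (x < -1 ∧ s < -1) ∨ (-1 < x ∧ -1 < s)) :
    phi A B x ≤ phi A B s - A * (x - s) ^ 2 := by
  have hs1 : s + 1 ≠ 0 := by
    rcases hside with h | h
    · linarith [h.2]
    · linarith [h.2]
  have hx1 : x + 1 ≠ 0 := by
    rcases hside with h | h
    · linarith [h.1]
    · linarith [h.1]
  have hq : 0 < (x + 1) / (s + 1) := by
    rcases hside with h | h
    · exact div_pos_of_neg_of_neg (by linarith) (by linarith)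
    · exact div_pos (by linarith) (by linarith)
  have hlog : Real.log |x + 1| - Real.log |s + 1| ≤ (x + 1) / (s + 1) - 1 := by
    rw [← Real.log_div (abs_ne_zero.mpr hx1) (abs_ne_zero.mpr hs1), ← abs_div, abs_of_pos hq]
    exact Real.log_le_sub_one_of_pos hq
  have he : (x + 1) / (s + 1) - 1 = (x - s) * (s + 1)⁻¹ := by
    field_simp
    ring
  rw [he] at hlog
  have hinv : (s + 1)⁻¹ = 2 * A * s - B := by linarith
  rw [hinv] at hlog
  unfold phi
  nlinarith

lemma phi_lt_of_crit {A B s x : ℝ} (hA : 0 < A) (hs : -2 * A * s + B + (s + 1)⁻¹ = 0)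
    (hside : (x < -1 ∧ s < -1) ∨ (-1 < x ∧ -1 < s)) (hne : x ≠ s) :
    phi A B x < phi A B s := by
  have h := phi_le_of_crit hs hside
  have : 0 < (x - s) ^ 2 := by
    have : x - s ≠ 0 := sub_ne_zero.mpr hne
    positivity
  nlinarith

/-- properness: preimages of bounded sets lie in a compact subset of `CH` -/
lemma exists_compact {A : ℝ} (B : ℝ) (hA : 0 < A) (R : ℝ) :
    ∃ K : Set ℂ, IsCompact K ∧ K ⊆ CH ∧ ∀ w ∈ CH, ‖Phi A B w‖ ≤ R → w ∈ K := by
  set M : ℝ := max 2 ((|B| + 2 + Real.pi + |R|) / A + 1) with hM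
  set L : ℝ := |R| + A * M ^ 2 + |B| * M with hL
  refine ⟨{w | 0 ≤ w.im ∧ ‖w‖ ≤ M ∧ Real.exp (-L) ≤ ‖w + 1‖}, ?_, ?_, ?_⟩
  · apply Metric.isCompact_of_isClosed_isBounded
    · have h1 : IsClosed {w : ℂ | 0 ≤ w.im} := isClosed_le continuous_const Complex.continuous_im
      have h2 : IsClosed {w : ℂ | ‖w‖ ≤ M} := isClosed_le continuous_norm continuous_const
      have h3 : IsClosed {w : ℂ | Real.exp (-L) ≤ ‖w + 1‖} :=
        isClosed_le continuous_const (by fun_prop)
      exact h1.inter (h2.inter h3)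
    · apply (Metric.isBounded_closedBall (x := (0 : ℂ)) (r := M)).subset
      intro w hw
      simpa using hw.2.1
  · intro w hw
    refine ⟨hw.1, ?_⟩
    rintro rfl
    have := hw.2.2
    simp at this
    exact absurd this (not_le.mpr (Real.exp_pos _))
  · intro w hw hR
    have hw1 : w + 1 ≠ 0 := fun h => hw.2 (eq_neg_of_add_eq_zero_left h)
    have hnpos : 0 < ‖w + 1‖ := norm_pos_iff.mpr hw1
    have hR' : R ≤ |R| := le_abs_self R
    have hM2 : 2 ≤ M := le_max_left _ _
    have hM3 : (|B| + 2 + Real.pi + |R|) / A + 1 ≤ M := le_max_right _ _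
    have hpi := Real.pi_pos
    -- size bound
    have hlogn : ‖Complex.log (w + 1)‖ ≤ |Real.log ‖w + 1‖| + Real.pi := by
      calc ‖Complex.log (w + 1)‖ ≤ |(Complex.log (w + 1)).re| + |(Complex.log (w + 1)).im| :=
            Complex.norm_le_abs_re_add_abs_im _
        _ ≤ |Real.log ‖w + 1‖| + Real.pi := by
            rw [Complex.log_re, Complex.log_im]
            gcongr
            exact Complex.abs_arg_le_pi _
    have htri : ‖(A : ℂ) * w ^ 2‖ ≤ ‖Phi A B w‖ + ‖(B : ℂ) * w‖ + ‖Complex.log (w + 1)‖ := by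
      have e : (A : ℂ) * w ^ 2 = -(Phi A B w) + (B : ℂ) * w + Complex.log (w + 1) := by
        unfold Phi
        ring
      rw [e]
      calc ‖-(Phi A B w) + (B : ℂ) * w + Complex.log (w + 1)‖
          ≤ ‖-(Phi A B w) + (B : ℂ) * w‖ + ‖Complex.log (w + 1)‖ := norm_add_le _ _
        _ ≤ ‖-(Phi A B w)‖ + ‖(B : ℂ) * w‖ + ‖Complex.log (w + 1)‖ := by
            gcongr
            exact norm_add_le _ _
        _ = _ := by rw [norm_neg]
    have hnA : ‖(A : ℂ) * w ^ 2‖ = A * ‖w‖ ^ 2 := by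
      rw [norm_mul, norm_pow, Complex.norm_real, Real.norm_eq_abs, abs_of_pos hA]
    have hnB : ‖(B : ℂ) * w‖ = |B| * ‖w‖ := by
      rw [norm_mul, Complex.norm_real, Real.norm_eq_abs]
    rw [hnA, hnB] at htri
    have hwM : ‖w‖ ≤ M := by
      by_contra hcon
      push Not at hcon
      have hw2 : 2 < ‖w‖ := lt_of_le_of_lt hM2 hcon
      have hlow : 1 ≤ ‖w + 1‖ := by
        have := norm_sub_norm_le w (-1)
        rw [sub_neg_eq_add, norm_neg, norm_one] at this
        linarith
      have hup : ‖w + 1‖ ≤ ‖w‖ + 1 := by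
        have := norm_add_le w 1
        rwa [norm_one] at this
      have hlog1 : |Real.log ‖w + 1‖| ≤ ‖w‖ + 1 := by
        rw [abs_of_nonneg (Real.log_nonneg hlow)]
        have := Real.log_le_sub_one_of_pos hnpos
        linarith
      have hA1 : (|B| + 2 + Real.pi + |R|) / A < ‖w‖ := by linarith
      rw [div_lt_iff₀ hA] at hA1
      have hBn := abs_nonneg B
      have hRn := abs_nonneg R
      have hbig : (|B| + 2 + Real.pi + |R|) * ‖w‖ ≤ A * ‖w‖ ^ 2 := by nlinarith
      nlinarith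
    refine ⟨hw.1, hwM, ?_⟩
    have hre : |Real.log ‖w + 1‖| ≤ L := by
      have e : Real.log ‖w + 1‖ = (Phi A B w + (A : ℂ) * w ^ 2 - (B : ℂ) * w).re := by
        rw [← Complex.log_re]
        congr 1
        unfold Phi
        ring
      rw [e]
      calc |(Phi A B w + (A : ℂ) * w ^ 2 - (B : ℂ) * w).re|
          ≤ ‖Phi A B w + (A : ℂ) * w ^ 2 - (B : ℂ) * w‖ := Complex.abs_re_le_norm _
        _ ≤ ‖Phi A B w + (A : ℂ) * w ^ 2‖ + ‖(B : ℂ) * w‖ := norm_sub_le _ _
        _ ≤ ‖Phi A B w‖ + ‖(A : ℂ) * w ^ 2‖ + ‖(B : ℂ) * w‖ := by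
            gcongr
            exact norm_add_le _ _
        _ ≤ L := by
            rw [hnA, hnB, hL]
            have h1 : A * ‖w‖ ^ 2 ≤ A * M ^ 2 := by gcongr
            have h2 : |B| * ‖w‖ ≤ |B| * M := by gcongr
            linarith
    have h2 : -L ≤ Real.log ‖w + 1‖ := (abs_le.mp hre).1
    rwa [Real.le_log_iff_exp_le hnpos] at h2

end Pool.Agent.W769.HU
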