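import Pool.Agent.W769.HU.Harm

/-!
Primitives of `Φ'(w)/(w-τ)` and their boundary values.
-/

open Complex Set Filter Topology

namespace Pool.Agent.W769.HU

/-- closed lower half plane -/
def LH : Set ℂ := {τ | τ.im ≤ 0}

noncomputable def JJ (A B : ℝ) (τ w : ℂ) : ℂ :=
  -2 * (A : ℂ) * w + dPhi A B τ * Complex.log (w - τ) - (τ + 1)⁻¹ * Complex.log (w + 1)

lemma hasDerivAt_JJ (A B : ℝ) {τ w : ℂ} (hτ : τ ∈ LH) (hτ1 : τ ≠ -1) (hw : w ∈ UH) :
    HasDerivAt (JJ A B τ) ((w - τ)⁻¹ * dPhi A B w) w := by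
  have hwim : 0 < w.im := hw
  have hτim : τ.im ≤ 0 := hτ
  have him : 0 < (w - τ).im := by
    rw [Complex.sub_im]
    linarith
  have hs : w - τ ∈ slitPlane := slit_of_im_pos him
  have hne : w - τ ≠ 0 := by
    intro h
    rw [h] at him
    simp at him
  have hw1 : w + 1 ≠ 0 := by
    intro h
    have := add_one_slit hw
    rw [h] at this
    simp at this
  have hτ1' : τ + 1 ≠ 0 := fun h => hτ1 (eq_neg_of_add_eq_zero_left h)
  have h1 : HasDerivAt (fun w : ℂ => Complex.log (w - τ)) ((w - τ)⁻¹) w := by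
    have := (((hasDerivAt_id w).sub_const τ)).clog hs
    simpa using this
  have h2 : HasDerivAt (fun w : ℂ => Complex.log (w + 1)) ((w + 1)⁻¹) w := by
    have := (((hasDerivAt_id w).add_const 1)).clog (add_one_slit hw)
    simpa using this
  have h3 := (((hasDerivAt_id w).const_mul (-2 * (A : ℂ))).add (h1.const_mul (dPhi A B τ))).sub
    (h2.const_mul ((τ + 1)⁻¹))
  convert! h3 using 1
  unfold dPhi
  field_simp
  ring

/-- continuity of the primitive in `w` up to the real axis -/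
lemma continuousWithinAt_JJ_w (A B : ℝ) {τ : ℂ} {s : ℝ} (hτ : τ ∈ LH) (hs1 : s ≠ -1)
    (hsτ : (s : ℂ) ≠ τ) : ContinuousWithinAt (JJ A B τ) UH (s : ℂ) := by
  have hτim : τ.im ≤ 0 := hτ
  have h1 : ContinuousWithinAt (fun w : ℂ => Complex.log (w - τ)) UH (s : ℂ) := by
    refine ContinuousWithinAt.comp (t := {z : ℂ | 0 ≤ z.im ∧ z ≠ 0}) (g := Complex.log)
      (f := fun w : ℂ => w - τ) ?_ ?_ ?_
    · apply continuousOn_log_upper
      refine ⟨?_, sub_ne_zero.mpr hsτ⟩
      simpa using hτim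
    · fun_prop
    · intro w hw
      have hwim : 0 < w.im := hw
      have him : 0 < (w - τ).im := by
        rw [Complex.sub_im]
        linarith
      refine ⟨him.le, ?_⟩
      intro h
      have h' : w - τ = 0 := h
      rw [h'] at him
      simp at him
  have h2 : ContinuousWithinAt (fun w : ℂ => Complex.log (w + 1)) UH (s : ℂ) := by
    refine ContinuousWithinAt.comp (t := {z : ℂ | 0 ≤ z.im ∧ z ≠ 0}) (g := Complex.log)
      (f := fun w : ℂ => w + 1) ?_ ?_ ?_
    · apply continuousOn_log_upper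
      refine ⟨by simp, ?_⟩
      intro h
      apply hs1
      have : (s : ℂ) = -1 := eq_neg_of_add_eq_zero_left h
      exact_mod_cast this
    · fun_prop
    · intro w hw
      have hwim : 0 < w.im := hw
      have him : 0 < (w + 1).im := by simpa using hwim
      refine ⟨him.le, ?_⟩
      intro h
      have h' : w + 1 = 0 := h
      rw [h'] at him
      simp at him
  unfold JJ
  exact ((by fun_prop : ContinuousWithinAt (fun w : ℂ => -2 * (A : ℂ) * w) UH (s : ℂ)).add
    (continuousWithinAt_const.mul h1)).sub (continuousWithinAt_const.mul h2)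

/-- continuity of the primitive in `τ` up to the real axis; `w` is a point of the closed
upper half plane -/
lemma continuousWithinAt_JJ_τ (A B : ℝ) {t : ℝ} {w : ℂ} (hw : 0 ≤ w.im) (ht1 : t ≠ -1)
    (hwt : w ≠ (t : ℂ)) : ContinuousWithinAt (fun τ => JJ A B τ w) LH (t : ℂ) := by
  have ht1' : (t : ℂ) + 1 ≠ 0 := by
    intro h
    apply ht1
    have : (t : ℂ) = -1 := eq_neg_of_add_eq_zero_left h
    exact_mod_cast this
  have h1 : ContinuousWithinAt (fun τ : ℂ => Complex.log (w - τ)) (LH \ {w}) (t : ℂ) := by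
    refine ContinuousWithinAt.comp (t := {z : ℂ | 0 ≤ z.im ∧ z ≠ 0}) (g := Complex.log)
      (f := fun τ : ℂ => w - τ) ?_ ?_ ?_
    · apply continuousOn_log_upper
      refine ⟨by simpa using hw, sub_ne_zero.mpr hwt⟩
    · fun_prop
    · rintro τ ⟨hτ, hτw⟩
      have hτim : τ.im ≤ 0 := hτ
      refine ⟨?_, ?_⟩
      · rw [Complex.sub_im]
        linarith
      · intro h
        exact hτw (sub_eq_zero.mp h).symm
  have h1' : ContinuousWithinAt (fun τ : ℂ => Complex.log (w - τ)) LH (t : ℂ) := by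
    apply h1.mono_of_mem_nhdsWithin
    have : {w}ᶜ ∈ 𝓝 (t : ℂ) := isOpen_compl_singleton.mem_nhds (by
      simpa using fun h => hwt h.symm)
    filter_upwards [self_mem_nhdsWithin, mem_nhdsWithin_of_mem_nhds this] with τ h1 h2
    exact ⟨h1, h2⟩
  have h2 : ContinuousWithinAt (fun τ : ℂ => (τ + 1)⁻¹) LH (t : ℂ) :=
    (ContinuousAt.inv₀ (f := fun τ : ℂ => τ + 1) (by fun_prop) ht1').continuousWithinAt
  have h3 : ContinuousWithinAt (fun τ : ℂ => dPhi A B τ) LH (t : ℂ) := by
    unfold dPhi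
    exact (by fun_prop : ContinuousWithinAt (fun τ : ℂ => -2 * (A : ℂ) * τ + (B : ℂ)) LH
      (t : ℂ)).add h2
  unfold JJ
  exact (continuousWithinAt_const.add (h3.mul h1')).sub (h2.mul continuousWithinAt_const)

/-- the angle `π/2 + arctan t` -/
noncomputable def th (t : ℝ) : ℝ := Real.pi / 2 + Real.arctan t

lemma arg_I_sub (t : ℝ) : Complex.arg (I - (t : ℂ)) = th t := by
  have h1 : I - (t : ℂ) = ((Real.sqrt (1 + t ^ 2) : ℝ) : ℂ) *
      (((Real.cos (th t) : ℝ) : ℂ) + ((Real.sin (th t) : ℝ) : ℂ) * I) := by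
    have hpos : 0 < Real.sqrt (1 + t ^ 2) := Real.sqrt_pos.mpr (by positivity)
    have hc : Real.cos (th t) = -t / Real.sqrt (1 + t ^ 2) := by
      unfold th
      rw [add_comm, Real.cos_add_pi_div_two, Real.sin_arctan]
      ring
    have hs : Real.sin (th t) = 1 / Real.sqrt (1 + t ^ 2) := by
      unfold th
      rw [add_comm, Real.sin_add_pi_div_two, Real.cos_arctan]
    rw [hc, hs]
    apply Complex.ext
    · simp only [Complex.sub_re, Complex.I_re, Complex.ofReal_re, Complex.mul_re, Complex.add_re,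
        Complex.ofReal_im, Complex.I_im, Complex.mul_im, Complex.add_im]
      field_simp
      ring
    · simp only [Complex.sub_im, Complex.I_im, Complex.ofReal_im, Complex.mul_im, Complex.add_re,
        Complex.ofReal_re, Complex.I_re, Complex.mul_re, Complex.add_im]
      field_simp
      ring
  rw [h1]
  have hpos : 0 < Real.sqrt (1 + t ^ 2) := Real.sqrt_pos.mpr (by positivity)
  have hb1 := Real.neg_pi_div_two_lt_arctan t
  have hb2 := Real.arctan_lt_pi_div_two t
  have hpi := Real.pi_pos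
  have := Complex.arg_mul_cos_add_sin_mul_I hpos (θ := th t)
    ⟨by unfold th; linarith, by unfold th; linarith⟩
  simpa using this

lemma arg_I_add_one : Complex.arg (I + 1) = Real.pi / 4 := by
  have h := arg_I_sub (-1)
  have e : I - ((-1 : ℝ) : ℂ) = I + 1 := by push_cast; ring
  rw [e] at h
  rw [h, th, Real.arctan_neg, Real.arctan_one]
  ring

/-- real derivative -/
noncomputable def dphi (A B t : ℝ) : ℝ := -2 * A * t + B + (t + 1)⁻¹

lemma dPhi_ofReal (A B t : ℝ) : dPhi A B (t : ℂ) = (dphi A B t : ℂ) := by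
  unfold dPhi dphi
  push_cast
  ring

lemma log_ofReal_im (x : ℝ) : (Complex.log (x : ℂ)).im = if x < 0 then Real.pi else 0 := by
  rw [Complex.log_im]
  split_ifs with h
  · exact Complex.arg_ofReal_of_neg h
  · exact Complex.arg_ofReal_of_nonneg (not_lt.mp h)

lemma JJ_real_im (A B t s : ℝ) : (JJ A B (t : ℂ) (s : ℂ)).im =
    dphi A B t * (if s < t then Real.pi else 0) -
      (t + 1)⁻¹ * (if s < -1 then Real.pi else 0) := by
  unfold JJ
  have e1 : (s : ℂ) - (t : ℂ) = ((s - t : ℝ) : ℂ) := by push_cast; ring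
  have e2 : (s : ℂ) + 1 = ((s + 1 : ℝ) : ℂ) := by push_cast; ring
  have e3 : ((t : ℂ) + 1)⁻¹ = (((t + 1)⁻¹ : ℝ) : ℂ) := by push_cast; ring
  have e4 : -2 * (A : ℂ) * (s : ℂ) = ((-2 * A * s : ℝ) : ℂ) := by push_cast; ring
  rw [dPhi_ofReal, e1, e2, e3, e4, Complex.sub_im, Complex.add_im, Complex.im_ofReal_mul,
    Complex.im_ofReal_mul, Complex.ofReal_im, log_ofReal_im, log_ofReal_im]
  have h1 : (s - t < 0) ↔ s < t := sub_neg
  have h2 : (s + 1 < 0) ↔ s < -1 := by constructor <;> intro h <;> linarith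
  simp only [h1, h2]
  ring

lemma JJ_I_im (A B t : ℝ) : (JJ A B (t : ℂ) I).im =
    -2 * A + dphi A B t * th t - (t + 1)⁻¹ * (Real.pi / 4) := by
  unfold JJ
  have e3 : ((t : ℂ) + 1)⁻¹ = (((t + 1)⁻¹ : ℝ) : ℂ) := by push_cast; ring
  have e4 : -2 * (A : ℂ) * I = ((-2 * A : ℝ) : ℂ) * I := by push_cast; ring
  rw [dPhi_ofReal, e3, e4, Complex.sub_im, Complex.add_im, Complex.im_ofReal_mul,
    Complex.im_ofReal_mul, Complex.im_ofReal_mul, Complex.log_im, Complex.log_im, arg_I_sub,
    arg_I_add_one, Complex.I_im]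
  ring

lemma Phi_I_im (A B : ℝ) : (Phi A B I).im = B + Real.pi / 4 := by
  unfold Phi
  have e : -(A : ℂ) * I ^ 2 = ((A : ℝ) : ℂ) := by
    rw [Complex.I_sq]
    ring
  rw [e, Complex.add_im, Complex.add_im, Complex.im_ofReal_mul, Complex.ofReal_im,
    Complex.log_im, arg_I_add_one, Complex.I_im]
  ring

end Pool.Agent.W769.HU
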